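import Mathlib

open MeasureTheory Filter Topology ProbabilityTheory
open scoped ENNReal NNReal

namespace Pool.Agent.N360.QP

section
variable {Ω : Type*} [MeasurableSpace Ω] {Q : Measure Ω} [IsProbabilityMeasure Q]

/-- decorrelation of a pair of sets along the maps `θ k` -/
def Mx (Q : Measure Ω) (θ : ℕ → Ω → Ω) (A B : Set Ω) : Prop :=
  Tendsto (fun k => Q.real (A ∩ θ k ⁻¹' B)) atTop (𝓝 (Q.real A * Q.real B))

lemma real_iUnion {f : ℕ → Set Ω} (hd : Pairwise (Function.onFun Disjoint f))
    (hm : ∀ i, MeasurableSet (f i)) : Q.real (⋃ i, f i) = ∑' i, Q.real (f i) := by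
  unfold Measure.real
  rw [measure_iUnion hd hm, ENNReal.tsum_toReal_eq]
  intro i
  exact measure_ne_top _ _

lemma summable_real {f : ℕ → Set Ω} (hd : Pairwise (Function.onFun Disjoint f))
    (hm : ∀ i, MeasurableSet (f i)) : Summable (fun i => Q.real (f i)) := by
  unfold Measure.real
  apply ENNReal.summable_toReal
  rw [← measure_iUnion hd hm]
  exact measure_ne_top _ _

lemma mx_ext {θ : ℕ → Ω → Ω} (hθm : ∀ k, Measurable (θ k))
    (hθ : ∀ k B, MeasurableSet B → Q.real (θ k ⁻¹' B) = Q.real B)
    {C : Set (Set Ω)} (hgen : (inferInstance : MeasurableSpace Ω) = MeasurableSpace.generateFrom C)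
    (hpi : IsPiSystem C) (hC : ∀ A ∈ C, MeasurableSet A)
    (h : ∀ A ∈ C, ∀ B ∈ C, Mx Q θ A B) :
    ∀ A B, MeasurableSet A → MeasurableSet B → Mx Q θ A B := by
  have step1 : ∀ A ∈ C, ∀ B, MeasurableSet B → Mx Q θ A B := by
    intro A hA B hB
    have hAm := hC A hA
    induction B, hB using MeasurableSpace.induction_on_inter hgen hpi with
    | empty => simp [Mx]
    | basic t ht => exact h A hA t ht
    | compl t ht ih =>
      unfold Mx at *
      have e : ∀ k, Q.real (A ∩ θ k ⁻¹' tᶜ) = Q.real A - Q.real (A ∩ θ k ⁻¹' t) := by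
        intro k
        have h1 := measureReal_inter_add_sdiff (μ := Q) (s := A) (hθm k ht)
        have h2 : A ∩ θ k ⁻¹' tᶜ = A \ θ k ⁻¹' t := by
          rw [Set.preimage_compl]; rfl
        rw [h2]; linarith
      simp_rw [e]
      have e2 : Q.real A * Q.real tᶜ = Q.real A - Q.real A * Q.real t := by
        rw [probReal_compl_eq_one_sub ht]; ring
      rw [e2]
      exact ih.const_sub _
    | iUnion f hd hm ih =>
      unfold Mx at *
      have e : ∀ k, Q.real (A ∩ θ k ⁻¹' (⋃ i, f i)) = ∑' i, Q.real (A ∩ θ k ⁻¹' (f i)) := by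
        intro k
        rw [Set.preimage_iUnion, Set.inter_iUnion]
        apply real_iUnion
        · intro i j hij
          exact ((hd hij).preimage _).mono Set.inter_subset_right Set.inter_subset_right
        · intro i
          exact hAm.inter (hθm k (hm i))
      simp_rw [e]
      rw [real_iUnion hd hm, ← tsum_mul_left]
      apply tendsto_tsum_of_dominated_convergence (bound := fun i => Q.real (f i))
        (summable_real hd hm)
      · intro i
        exact ih i
      · refine Eventually.of_forall (fun k i => ?_)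
        rw [Real.norm_eq_abs, abs_of_nonneg measureReal_nonneg, ← hθ k (f i) (hm i)]
        exact measureReal_mono Set.inter_subset_right
  intro A B hA hB
  induction A, hA using MeasurableSpace.induction_on_inter hgen hpi with
  | empty => simp [Mx]
  | basic t ht => exact step1 t ht B hB
  | compl t ht ih =>
    unfold Mx at *
    have e : ∀ k, Q.real (tᶜ ∩ θ k ⁻¹' B) = Q.real B - Q.real (t ∩ θ k ⁻¹' B) := by
      intro k
      have h1 := measureReal_inter_add_sdiff (μ := Q) (s := θ k ⁻¹' B) ht
      have h2 : tᶜ ∩ θ k ⁻¹' B = θ k ⁻¹' B \ t := by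
        rw [Set.inter_comm]; rfl
      rw [h2, Set.inter_comm t, ← hθ k B hB]; linarith
    simp_rw [e]
    have e2 : Q.real tᶜ * Q.real B = Q.real B - Q.real t * Q.real B := by
      rw [probReal_compl_eq_one_sub ht]; ring
    rw [e2]
    exact ih.const_sub _
  | iUnion f hd hm ih =>
    unfold Mx at *
    have e : ∀ k, Q.real ((⋃ i, f i) ∩ θ k ⁻¹' B) = ∑' i, Q.real (f i ∩ θ k ⁻¹' B) := by
      intro k
      rw [Set.iUnion_inter]
      apply real_iUnion
      · intro i j hij
        exact (hd hij).mono Set.inter_subset_left Set.inter_subset_left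
      · intro i
        exact (hm i).inter (hθm k hB)
    simp_rw [e]
    rw [real_iUnion hd hm, ← tsum_mul_right]
    apply tendsto_tsum_of_dominated_convergence (bound := fun i => Q.real (f i))
      (summable_real hd hm)
    · intro i
      exact ih i
    · refine Eventually.of_forall (fun k i => ?_)
      rw [Real.norm_eq_abs, abs_of_nonneg measureReal_nonneg]
      exact measureReal_mono Set.inter_subset_left

end

end Pool.Agent.N360.QP
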