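import Mathlib

open MeasureTheory Filter Topology
open scoped ENNReal

namespace Pool.Agent.N360.QP

/-- The circle `ℝ/ℤ`. -/
abbrev T1 := UnitAddCircle

/-- A reduced fraction `a/q` with `|α - a/q| < 1/q²`. -/
structure Good (α : ℝ) (q : ℕ) (a : ℤ) : Prop where
  qpos : 0 < q
  cop : IsCoprime a (q : ℤ)
  near : |α - a / q| < 1 / (q:ℝ)^2

lemma norm_coe_le (x : ℝ) (n : ℤ) : ‖(x : T1)‖ ≤ |x - n| := by
  rw [UnitAddCircle.norm_eq]; exact round_le x n

lemma coe_sub_nsmul (x α : ℝ) (k : ℕ) : ((x : T1) - k • (α : T1)) = ((x - k * α : ℝ) : T1) := by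
  simp

lemma near_mul {α : ℝ} {q : ℕ} {a : ℤ} (h : Good α q a) (k : ℕ) (hk : k < q) :
    |(k:ℝ) * (a / q - α)| ≤ 1 / q := by
  have hq : (0:ℝ) < q := by exact_mod_cast h.qpos
  rw [abs_mul, abs_of_nonneg (by positivity : (0:ℝ) ≤ k), abs_sub_comm]
  have h1 := h.near
  have hk' : (k:ℝ) ≤ q := by exact_mod_cast hk.le
  calc (k:ℝ) * |α - a / q| ≤ q * (1 / (q:ℝ)^2) := by
        apply mul_le_mul hk' h1.le (abs_nonneg _) hq.le
    _ = 1 / q := by field_simp

lemma count_lower {α : ℝ} {q : ℕ} {a : ℤ} (h : Good α q a) (z : T1) :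
    ∃ k < q, ‖z - k • (α : T1)‖ ≤ 2 / q := by
  obtain ⟨x, rfl⟩ := QuotientAddGroup.mk_surjective z
  have hq : (0:ℝ) < q := by exact_mod_cast h.qpos
  have hqz : (0:ℤ) < q := by exact_mod_cast h.qpos
  obtain ⟨u, v, huv⟩ := h.cop
  set m : ℤ := round (x * q) with hm
  have hk0 : 0 ≤ (m * u) % (q:ℤ) := Int.emod_nonneg _ hqz.ne'
  have hk1 : (m * u) % (q:ℤ) < q := Int.emod_lt_of_pos _ hqz
  obtain ⟨k, hk⟩ := Int.eq_ofNat_of_zero_le hk0
  have hkq : k < q := by
    rw [hk] at hk1; exact_mod_cast hk1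
  refine ⟨k, hkq, ?_⟩
  set n : ℤ := -(m * v) - a * ((m * u) / q) with hn
  have hak : a * (k:ℤ) = m + q * n := by
    have h2 : (m * u) % (q:ℤ) + q * ((m * u) / q) = m * u := Int.emod_add_mul_ediv _ _
    rw [hk] at h2
    have h3 : (k:ℤ) = m * u - q * ((m * u) / q) := by linarith
    rw [h3, hn]
    have : a * u = 1 - v * q := by linarith
    linear_combination m * this
  have hakR : (a:ℝ) * k = m + q * n := by exact_mod_cast hak
  have e1 : ((x : ℝ) : T1) - k • (α : T1) = ((x - k * α : ℝ) : T1) := coe_sub_nsmul x α k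
  change ‖((x : ℝ) : T1) - k • (α : T1)‖ ≤ _
  rw [e1]
  refine (norm_coe_le _ (-n)).trans ?_
  have e2 : (x - k * α - ((-n : ℤ) : ℝ)) = (x - m / q) + k * (a / q - α) := by
    push_cast
    field_simp
    linear_combination -hakR
  rw [e2]
  have h4 : |x - m / q| ≤ 1 / (2 * q) := by
    have := abs_sub_round (x * q)
    have e3 : x - m / q = (x * q - round (x * q)) / q := by
      rw [hm]; field_simp
    rw [e3, abs_div, abs_of_pos hq, div_le_div_iff₀ hq (by positivity)]
    nlinarith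
  have h5 := near_mul h k hkq
  calc |x - m / q + k * (a / q - α)| ≤ |x - m / q| + |(k:ℝ) * (a / q - α)| := abs_add_le _ _
    _ ≤ 1 / (2 * q) + 1 / q := add_le_add h4 h5
    _ ≤ 2 / q := by
      rw [div_add_div _ _ (by positivity) hq.ne', div_le_div_iff₀ (by positivity) hq]
      nlinarith [mul_pos hq hq]

lemma count_upper {α : ℝ} {q : ℕ} {a : ℤ} (h : Good α q a) (z : T1) :
    ((Finset.range q).filter (fun k => ‖z - k • (α : T1)‖ ≤ 2 / q)).card ≤ 7 := by
  obtain ⟨x, rfl⟩ := QuotientAddGroup.mk_surjective z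
  have hq : (0:ℝ) < q := by exact_mod_cast h.qpos
  have hqz : (0:ℤ) < q := by exact_mod_cast h.qpos
  set F : ℕ → ℤ := fun k => a * k + q * round (x - k * α) with hF
  have hmaps : Set.MapsTo F
      ((Finset.range q).filter (fun k => ‖((x:ℝ) : T1) - k • (α : T1)‖ ≤ 2 / q) : Set ℕ)
      (Finset.Icc ⌈q * x - 3⌉ ⌊q * x + 3⌋ : Finset ℤ) := by
    intro k hk
    simp only [Finset.coe_filter, Finset.mem_range, Set.mem_ofPred_eq] at hk
    obtain ⟨hk1, hk2⟩ := hk
    rw [coe_sub_nsmul, UnitAddCircle.norm_eq] at hk2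
    have h5 := near_mul h k hk1
    have h6 : |q * x - F k| ≤ 3 := by
      have e : (q:ℝ) * x - F k = q * ((x - k * α - round (x - k * α)) - k * (a / q - α)) := by
        simp only [hF]
        push_cast
        field_simp
        ring
      rw [e, abs_mul, abs_of_pos hq]
      have : |(x - k * α - round (x - k * α)) - k * (a / q - α)| ≤ 2 / q + 1 / q :=
        (abs_sub _ _).trans (add_le_add hk2 h5)
      calc (q:ℝ) * |(x - k * α - round (x - k * α)) - k * (a / q - α)| ≤ q * (2 / q + 1 / q) :=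
            mul_le_mul_of_nonneg_left this hq.le
        _ = 3 := by field_simp; norm_num
    rw [abs_le] at h6
    simp only [Finset.coe_Icc, Set.mem_Icc]
    constructor
    · apply Int.ceil_le.mpr; linarith [h6.2]
    · apply Int.le_floor.mpr; linarith [h6.1]
  have hinj : Set.InjOn F
      ((Finset.range q).filter (fun k => ‖((x:ℝ) : T1) - k • (α : T1)‖ ≤ 2 / q) : Set ℕ) := by
    intro k hk l hl hkl
    simp only [Finset.coe_filter, Finset.mem_range, Set.mem_ofPred_eq] at hk hl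
    simp only [hF] at hkl
    have h7 : a * ((k:ℤ) - l) = q * (round (x - l * α) - round (x - k * α)) := by
      linear_combination hkl
    have h8 : (q:ℤ) ∣ a * ((k:ℤ) - l) := ⟨_, h7⟩
    have h9 : (q:ℤ) ∣ ((k:ℤ) - l) := h.cop.symm.dvd_of_dvd_mul_left h8
    have h10 : (k:ℤ) - l = 0 := by
      apply Int.eq_zero_of_abs_lt_dvd h9
      rw [abs_lt]
      constructor <;> omega
    omega
  have hcard := Finset.card_le_card_of_injOn F hmaps hinj
  refine hcard.trans ?_
  rw [Int.card_Icc]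
  have h11 : (⌊q * x + 3⌋ : ℝ) ≤ q * x + 3 := Int.floor_le _
  have h12 : q * x - 3 ≤ (⌈q * x - 3⌉ : ℝ) := Int.le_ceil _
  have h13 : ((⌊q * x + 3⌋ - ⌈q * x - 3⌉ : ℤ) : ℝ) ≤ 6 := by push_cast; linarith
  have h14 : (⌊q * x + 3⌋ - ⌈q * x - 3⌉ : ℤ) ≤ 6 := by exact_mod_cast h13
  omega

/-- Reduced fractions close to an irrational have unbounded denominators. -/
lemma exists_good {α : ℝ} (hα : Irrational α) (N : ℕ) : ∃ q a, N < q ∧ Good α q a := by
  have hinf := Real.infinite_rat_abs_sub_lt_one_div_den_sq_of_irrational hα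
  by_contra hcon
  push Not at hcon
  apply hinf
  have hsub : {r : ℚ | |α - r| < 1 / (r.den:ℝ)^2} ⊆
      (fun p : ℤ × ℕ => (p.1 : ℚ) / p.2) ''
        ((Finset.Icc (-⌈(|α| + 1) * N⌉) ⌈(|α| + 1) * N⌉ ×ˢ Finset.range (N + 1) :
          Finset (ℤ × ℕ)) : Set (ℤ × ℕ)) := by
    intro r hr
    simp only [Set.mem_ofPred_eq] at hr
    have hden : 0 < r.den := r.den_pos
    have hdenR : (1:ℝ) ≤ r.den := by exact_mod_cast hden
    have hle : r.den ≤ N := by
      by_contra hlt
      push Not at hlt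
      refine hcon r.den r.num hlt ⟨hden, ?_, ?_⟩
      · exact Rat.isCoprime_num_den r
      · have e : (r:ℝ) = (r.num:ℝ) / (r.den:ℝ) := Rat.cast_def r
        rw [← e]; exact hr
    refine ⟨(r.num, r.den), ?_, by simpa using Rat.num_div_den r⟩
    simp only [Finset.coe_product, Set.mem_prod, Finset.coe_Icc, Set.mem_Icc, Finset.coe_range,
      Set.mem_Iio]
    have hNR : (r.den:ℝ) ≤ N := by exact_mod_cast hle
    have h1 : |(r:ℝ)| ≤ |α| + 1 := by
      have h2 : |α - r| < 1 := by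
        refine hr.trans_le ?_
        rw [div_le_one (by positivity)]
        nlinarith
      have : |(r:ℝ)| ≤ |α| + |α - r| := by
        have e : (r:ℝ) = α - (α - r) := by ring
        calc |(r:ℝ)| = |α - (α - r)| := by rw [← e]
          _ ≤ |α| + |α - r| := abs_sub _ _
      linarith
    have hnum : |(r.num:ℝ)| ≤ (|α| + 1) * N := by
      have e : (r.num:ℝ) = r * r.den := by
        have : (r:ℝ) = (r.num:ℝ) / (r.den:ℝ) := Rat.cast_def r
        rw [this]; field_simp
      rw [e, abs_mul, abs_of_nonneg (by positivity : (0:ℝ) ≤ r.den)]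
      apply mul_le_mul h1 hNR (by positivity) (by positivity)
    have hc : (|α| + 1) * N ≤ (⌈(|α| + 1) * N⌉ : ℝ) := Int.le_ceil _
    rw [abs_le] at hnum
    refine ⟨⟨?_, ?_⟩, by omega⟩
    · have : ((-⌈(|α| + 1) * N⌉ : ℤ) : ℝ) ≤ (r.num : ℝ) := by push_cast; linarith [hnum.1]
      exact_mod_cast this
    · have : (r.num : ℝ) ≤ ((⌈(|α| + 1) * N⌉ : ℤ) : ℝ) := by linarith [hnum.2]
      exact_mod_cast this
  exact Set.Finite.subset (Set.Finite.image _ (Finset.finite_toSet _)) hsub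

end Pool.Agent.N360.QP
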