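import Pool.Agent.N360.QP.Arc

open MeasureTheory Filter Topology
open scoped ENNReal NNReal

namespace Pool.Agent.N360.QP

/-- Birkhoff sums. -/
noncomputable def S (f : T1 → ℝ) (a : T1) (k : ℕ) (x : T1) : ℝ :=
  ∑ i ∈ Finset.range k, f (x + i • a)

/-- `μ` is conformal for the rotation by `a` with cocycle `f`. -/
def IsConf (a : T1) (f : T1 → ℝ) (μ : Measure T1) : Prop :=
  μ.map (fun x => x - a) = μ.withDensity (fun x => ENNReal.ofReal (Real.exp (f x)))

lemma measurable_expf {f : T1 → ℝ} (hf : Continuous f) :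
    Measurable (fun x => ENNReal.ofReal (Real.exp (f x))) :=
  (Real.continuous_exp.comp hf).measurable.ennreal_ofReal

lemma IsConf.lint {a : T1} {f : T1 → ℝ} {μ : Measure T1} (h : IsConf a f μ) (hf : Continuous f)
    {g : T1 → ℝ≥0∞} (hg : Measurable g) :
    ∫⁻ x, g (x - a) ∂μ = ∫⁻ x, g x * ENNReal.ofReal (Real.exp (f x)) ∂μ := by
  have h1 : ∫⁻ x, g x ∂(μ.map (fun x => x - a)) = ∫⁻ x, g (x - a) ∂μ :=
    lintegral_map hg (measurable_id.sub_const a)
  rw [← h1, h, lintegral_withDensity_eq_lintegral_mul _ (measurable_expf hf) hg]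
  apply lintegral_congr
  intro x
  simp [mul_comm]

lemma continuous_S {f : T1 → ℝ} (hf : Continuous f) (a : T1) (k : ℕ) : Continuous (S f a k) := by
  unfold S
  exact continuous_finsetSum _ (fun i _ => hf.comp (continuous_add_const _))

lemma IsConf.iter {a : T1} {f : T1 → ℝ} {μ : Measure T1} (h : IsConf a f μ) (hf : Continuous f)
    (k : ℕ) {g : T1 → ℝ≥0∞} (hg : Measurable g) :
    ∫⁻ x, g (x - k • a) ∂μ = ∫⁻ x, g x * ENNReal.ofReal (Real.exp (S f a k x)) ∂μ := by
  induction k generalizing g with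
  | zero => simp [S]
  | succ k ih =>
    have e1 : ∀ x : T1, x - (k + 1) • a = (x - a) - k • a := by
      intro x; rw [add_smul, one_smul]; abel
    simp_rw [e1]
    have hg' : Measurable (fun y : T1 => g (y - k • a)) := hg.comp (measurable_id.sub_const _)
    rw [h.lint hf hg']
    have hg'' : Measurable (fun y : T1 => g y * ENNReal.ofReal (Real.exp (f (y + k • a)))) :=
      hg.mul (measurable_expf (hf.comp (continuous_add_const _)))
    have := ih hg''
    have e2 : ∀ x : T1, x - k • a + k • a = x := by intro x; abel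
    simp only [e2] at this
    rw [this]
    apply lintegral_congr
    intro x
    rw [mul_assoc, ← ENNReal.ofReal_mul (Real.exp_pos _).le, ← Real.exp_add]
    congr 3
    simp only [S]
    rw [Finset.sum_range_succ]
    ring

lemma S_dist {f : T1 → ℝ} {L : ℝ≥0} (hf : LipschitzWith L f) (a : T1) {q k : ℕ} (hk : k < q)
    {x x0 : T1} (hx : x ∈ Metric.closedBall x0 (2 / (q:ℝ))) :
    |S f a k x - S f a k x0| ≤ 2 * L := by
  have hq : (0:ℝ) < q := by exact_mod_cast (Nat.zero_lt_of_lt hk)
  unfold S
  rw [← Finset.sum_sub_distrib]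
  refine (Finset.abs_sum_le_sum_abs _ _).trans ?_
  have h1 : ∀ i ∈ Finset.range k, |f (x + i • a) - f (x0 + i • a)| ≤ L * (2 / q) := by
    intro i _
    have h2 := hf.dist_le_mul (x + i • a) (x0 + i • a)
    rw [Real.dist_eq, dist_add_right] at h2
    exact h2.trans (mul_le_mul_of_nonneg_left (Metric.mem_closedBall.mp hx) L.2)
  refine (Finset.sum_le_sum h1).trans ?_
  rw [Finset.sum_const, Finset.card_range, nsmul_eq_mul]
  have hk' : (k:ℝ) ≤ q := by exact_mod_cast hk.le
  calc (k:ℝ) * (L * (2 / q)) ≤ q * (L * (2 / q)) :=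
        mul_le_mul_of_nonneg_right hk' (by positivity)
    _ = 2 * L := by field_simp

section
variable {α : ℝ} {f : T1 → ℝ} {L : ℝ≥0}

lemma mem_ball_iff (x x0 a : T1) (k : ℕ) (r : ℝ) :
    x - k • a ∈ Metric.closedBall x0 r ↔ ‖(x - x0) - k • a‖ ≤ r := by
  rw [Metric.mem_closedBall, dist_eq_norm]
  have : x - k • a - x0 = (x - x0) - k • a := by abel
  rw [this]

lemma mass_lower (hf : LipschitzWith L f) {μ : Measure T1}
    (h : IsConf (α : T1) f μ) {q : ℕ} {a : ℤ} (hq : Good α q a) (x0 : T1) :
    μ Set.univ ≤ ENNReal.ofReal (Real.exp (2 * L) * ∑ k ∈ Finset.range q, Real.exp (S f α k x0))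
      * μ (Metric.closedBall x0 (2 / (q:ℝ))) := by
  set J := Metric.closedBall x0 (2 / (q:ℝ)) with hJ
  have hJm : MeasurableSet J := Metric.isClosed_closedBall.measurableSet
  have hind : Measurable (J.indicator (fun _ => (1:ℝ≥0∞))) := measurable_const.indicator hJm
  calc μ Set.univ = ∫⁻ _, 1 ∂μ := by simp
    _ ≤ ∫⁻ x, ∑ k ∈ Finset.range q, J.indicator (fun _ => (1:ℝ≥0∞)) (x - k • (α : T1)) ∂μ := by
        apply lintegral_mono
        intro x
        obtain ⟨k, hk, hk2⟩ := count_lower hq (x - x0)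
        have hmem : x - k • (α : T1) ∈ J := (mem_ball_iff _ _ _ _ _).mpr hk2
        have : (1:ℝ≥0∞) = J.indicator (fun _ => (1:ℝ≥0∞)) (x - k • (α : T1)) := by
          rw [Set.indicator_of_mem hmem]
        change (1:ℝ≥0∞) ≤ _
        conv_lhs => rw [this]
        exact Finset.single_le_sum (f := fun k => J.indicator (fun _ => (1:ℝ≥0∞)) (x - k • (α : T1)))
          (fun _ _ => zero_le) (Finset.mem_range.mpr hk)
    _ = ∑ k ∈ Finset.range q, ∫⁻ x, J.indicator (fun _ => (1:ℝ≥0∞)) (x - k • (α : T1)) ∂μ := by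
        rw [lintegral_finsetSum]
        intro k _
        exact hind.comp (measurable_id.sub_const _)
    _ = ∑ k ∈ Finset.range q, ∫⁻ x, J.indicator (fun _ => (1:ℝ≥0∞)) x *
          ENNReal.ofReal (Real.exp (S f α k x)) ∂μ := by
        apply Finset.sum_congr rfl
        intro k _
        exact h.iter hf.continuous k hind
    _ ≤ ∑ k ∈ Finset.range q, ∫⁻ x, J.indicator (fun _ => (1:ℝ≥0∞)) x *
          ENNReal.ofReal (Real.exp (2 * L) * Real.exp (S f α k x0)) ∂μ := by
        apply Finset.sum_le_sum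
        intro k hk
        apply lintegral_mono
        intro x
        by_cases hx : x ∈ J
        · have h1 := S_dist hf (α : T1) (Finset.mem_range.mp hk) hx
          apply mul_le_mul_right
          apply ENNReal.ofReal_le_ofReal
          rw [← Real.exp_add]
          apply Real.exp_le_exp.mpr
          rw [abs_le] at h1
          linarith [h1.2]
        · simp [hx]
    _ = ∑ k ∈ Finset.range q, ENNReal.ofReal (Real.exp (2 * L) * Real.exp (S f α k x0)) * μ J := by
        apply Finset.sum_congr rfl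
        intro k _
        rw [lintegral_mul_const _ hind, lintegral_indicator hJm]
        simp [mul_comm]
    _ = _ := by
        rw [← Finset.sum_mul, Finset.mul_sum, ENNReal.ofReal_sum_of_nonneg]
        intro k _
        positivity

lemma mass_upper (hf : LipschitzWith L f) {μ : Measure T1}
    (h : IsConf (α : T1) f μ) {q : ℕ} {a : ℤ} (hq : Good α q a) (x0 : T1) :
    ENNReal.ofReal (Real.exp (-(2 * L)) * ∑ k ∈ Finset.range q, Real.exp (S f α k x0))
      * μ (Metric.closedBall x0 (2 / (q:ℝ))) ≤ 7 * μ Set.univ := by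
  set J := Metric.closedBall x0 (2 / (q:ℝ)) with hJ
  have hJm : MeasurableSet J := Metric.isClosed_closedBall.measurableSet
  have hind : Measurable (J.indicator (fun _ => (1:ℝ≥0∞))) := measurable_const.indicator hJm
  calc _ = ∑ k ∈ Finset.range q,
        ENNReal.ofReal (Real.exp (-(2 * L)) * Real.exp (S f α k x0)) * μ J := by
        rw [← Finset.sum_mul, Finset.mul_sum, ENNReal.ofReal_sum_of_nonneg]
        intro k _
        positivity
    _ = ∑ k ∈ Finset.range q, ∫⁻ x, J.indicator (fun _ => (1:ℝ≥0∞)) x *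
          ENNReal.ofReal (Real.exp (-(2 * L)) * Real.exp (S f α k x0)) ∂μ := by
        apply Finset.sum_congr rfl
        intro k _
        rw [lintegral_mul_const _ hind, lintegral_indicator hJm]
        simp [mul_comm]
    _ ≤ ∑ k ∈ Finset.range q, ∫⁻ x, J.indicator (fun _ => (1:ℝ≥0∞)) x *
          ENNReal.ofReal (Real.exp (S f α k x)) ∂μ := by
        apply Finset.sum_le_sum
        intro k hk
        apply lintegral_mono
        intro x
        by_cases hx : x ∈ J
        · have h1 := S_dist hf (α : T1) (Finset.mem_range.mp hk) hx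
          apply mul_le_mul_right
          apply ENNReal.ofReal_le_ofReal
          rw [← Real.exp_add]
          apply Real.exp_le_exp.mpr
          rw [abs_le] at h1
          linarith [h1.1]
        · simp [hx]
    _ = ∑ k ∈ Finset.range q, ∫⁻ x, J.indicator (fun _ => (1:ℝ≥0∞)) (x - k • (α : T1)) ∂μ := by
        apply Finset.sum_congr rfl
        intro k _
        exact (h.iter hf.continuous k hind).symm
    _ = ∫⁻ x, ∑ k ∈ Finset.range q, J.indicator (fun _ => (1:ℝ≥0∞)) (x - k • (α : T1)) ∂μ := by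
        rw [lintegral_finsetSum]
        intro k _
        exact hind.comp (measurable_id.sub_const _)
    _ ≤ ∫⁻ _, 7 ∂μ := by
        apply lintegral_mono
        intro x
        have hc := count_upper hq (x - x0)
        change ∑ k ∈ Finset.range q, J.indicator (fun _ => (1:ℝ≥0∞)) (x - k • (α : T1)) ≤ 7
        have e : ∑ k ∈ Finset.range q, J.indicator (fun _ => (1:ℝ≥0∞)) (x - k • (α : T1)) =
            (((Finset.range q).filter (fun k => ‖(x - x0) - k • (α : T1)‖ ≤ 2 / q)).card : ℝ≥0∞) := by
          rw [Finset.card_filter]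
          push_cast
          apply Finset.sum_congr rfl
          intro k _
          by_cases hm : x - k • (α : T1) ∈ J
          · rw [Set.indicator_of_mem hm, if_pos ((mem_ball_iff _ _ _ _ _).mp hm)]
          · rw [Set.indicator_of_notMem hm, if_neg (fun hh => hm ((mem_ball_iff _ _ _ _ _).mpr hh))]
        rw [e]
        exact_mod_cast hc
    _ = 7 * μ Set.univ := by simp

lemma comp_ball (hf : LipschitzWith L f) {μ₁ μ₂ : Measure T1}
    (h₁ : IsConf (α : T1) f μ₁) (h₂ : IsConf (α : T1) f μ₂) {q : ℕ} {a : ℤ} (hq : Good α q a)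
    (x0 : T1) :
    μ₁ (Metric.closedBall x0 (2 / (q:ℝ))) * μ₂ Set.univ ≤
      ENNReal.ofReal (7 * Real.exp (4 * L)) * μ₁ Set.univ *
        μ₂ (Metric.closedBall x0 (2 / (q:ℝ))) := by
  set J := Metric.closedBall x0 (2 / (q:ℝ)) with hJ
  set s := ∑ k ∈ Finset.range q, Real.exp (S f α k x0) with hs
  have hspos : 0 < s := by
    apply Finset.sum_pos (fun k _ => Real.exp_pos _)
    exact ⟨0, Finset.mem_range.mpr hq.qpos⟩
  have hA := mass_upper hf h₁ hq x0
  have hB := mass_lower hf h₂ hq x0
  rw [← hs, ← hJ] at hA hB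
  have hc0 : ENNReal.ofReal (Real.exp (-(2 * L)) * s) ≠ 0 := by
    rw [Ne, ENNReal.ofReal_eq_zero, not_le]; positivity
  have hc1 : ENNReal.ofReal (Real.exp (-(2 * L)) * s) ≠ ⊤ := ENNReal.ofReal_ne_top
  rw [← ENNReal.mul_le_mul_iff_right hc0 hc1]
  calc ENNReal.ofReal (Real.exp (-(2 * L)) * s) * (μ₁ J * μ₂ Set.univ)
      = (ENNReal.ofReal (Real.exp (-(2 * L)) * s) * μ₁ J) * μ₂ Set.univ := by ring
    _ ≤ (7 * μ₁ Set.univ) * (ENNReal.ofReal (Real.exp (2 * L) * s) * μ₂ J) :=
        mul_le_mul' hA hB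
    _ = ENNReal.ofReal (Real.exp (-(2 * L)) * s) *
          (ENNReal.ofReal (7 * Real.exp (4 * L)) * μ₁ Set.univ * μ₂ J) := by
        have e : ENNReal.ofReal (Real.exp (-(2 * L)) * s) * ENNReal.ofReal (7 * Real.exp (4 * L))
            = 7 * ENNReal.ofReal (Real.exp (2 * L) * s) := by
          rw [← ENNReal.ofReal_mul (by positivity)]
          have e2 : Real.exp (-(2 * L)) * s * (7 * Real.exp (4 * L)) =
              7 * (Real.exp (2 * L) * s) := by
            have : Real.exp (2 * L) = Real.exp (-(2 * L)) * Real.exp (4 * L) := by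
              rw [← Real.exp_add]; congr 1; ring
            rw [this]; ring
          rw [e2, ENNReal.ofReal_mul (by norm_num)]
          norm_num
        calc (7 * μ₁ Set.univ) * (ENNReal.ofReal (Real.exp (2 * L) * s) * μ₂ J)
            = (7 * ENNReal.ofReal (Real.exp (2 * L) * s)) * (μ₁ Set.univ * μ₂ J) := by ring
          _ = _ := by rw [← e]; ring

lemma comp_compact_open (hα : Irrational α) (hf : LipschitzWith L f) {μ₁ μ₂ : Measure T1}
    (h₁ : IsConf (α : T1) f μ₁) (h₂ : IsConf (α : T1) f μ₂) {K U : Set T1}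
    (hK : IsCompact K) (hU : IsOpen U) (hKU : K ⊆ U) :
    μ₁ K * μ₂ Set.univ ≤
      7 * ENNReal.ofReal (7 * Real.exp (4 * L)) * μ₁ Set.univ * μ₂ U := by
  obtain ⟨δ, hδ, hthick⟩ := hK.exists_cthickening_subset_open hU hKU
  obtain ⟨N, hN⟩ := exists_nat_gt (4 / δ)
  obtain ⟨q, a, hNq, hq⟩ := exists_good hα N
  have hqpos : (0:ℝ) < q := by exact_mod_cast hq.qpos
  have h4q : 4 / (q:ℝ) ≤ δ := by
    have hNq' : (N:ℝ) < q := by exact_mod_cast hNq
    rw [div_le_iff₀ hqpos]
    rw [div_lt_iff₀ hδ] at hN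
    nlinarith
  have hgrid : Good (1 / q : ℝ) q 1 :=
    ⟨hq.qpos, isCoprime_one_left, by simp; positivity⟩
  set c : ℕ → T1 := fun j => j • ((1 / q : ℝ) : T1) with hc
  set B : ℕ → Set T1 := fun j => Metric.closedBall (c j) (2 / (q:ℝ)) with hB
  classical
  set I := (Finset.range q).filter (fun j => (B j ∩ K).Nonempty) with hI
  have hcover : K ⊆ ⋃ j ∈ I, B j := by
    intro x hx
    obtain ⟨j, hj, hj2⟩ := count_lower hgrid x
    have hxB : x ∈ B j := by
      simp only [hB, Metric.mem_closedBall, dist_eq_norm]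
      exact hj2
    simp only [Set.mem_iUnion]
    exact ⟨j, Finset.mem_filter.mpr ⟨Finset.mem_range.mpr hj, ⟨x, hxB, hx⟩⟩, hxB⟩
  have hsubU : ∀ j ∈ I, B j ⊆ U := by
    intro j hj y hy
    obtain ⟨w, hw1, hw2⟩ := (Finset.mem_filter.mp hj).2
    apply hthick
    apply Metric.mem_cthickening_of_dist_le y w δ K hw2
    have h1 : dist y (c j) ≤ 2 / q := Metric.mem_closedBall.mp hy
    have h2 : dist w (c j) ≤ 2 / q := Metric.mem_closedBall.mp hw1
    calc dist y w ≤ dist y (c j) + dist (c j) w := dist_triangle _ _ _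
      _ ≤ 2 / q + 2 / q := by rw [dist_comm (c j) w]; exact add_le_add h1 h2
      _ = 4 / q := by ring
      _ ≤ δ := h4q
  have hBm : ∀ j, MeasurableSet (B j) := fun j => Metric.isClosed_closedBall.measurableSet
  have hsum2 : ∑ j ∈ I, μ₂ (B j) ≤ 7 * μ₂ U := by
    calc ∑ j ∈ I, μ₂ (B j) = ∑ j ∈ I, ∫⁻ x, (B j).indicator (fun _ => (1:ℝ≥0∞)) x ∂μ₂ := by
          apply Finset.sum_congr rfl
          intro j _
          rw [lintegral_indicator (hBm j)]; simp
      _ = ∫⁻ x, ∑ j ∈ I, (B j).indicator (fun _ => (1:ℝ≥0∞)) x ∂μ₂ := by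
          rw [lintegral_finsetSum]
          intro j _
          exact measurable_const.indicator (hBm j)
      _ ≤ ∫⁻ x, U.indicator (fun _ => (7:ℝ≥0∞)) x ∂μ₂ := by
          apply lintegral_mono
          intro x
          change ∑ j ∈ I, (B j).indicator (fun _ => (1:ℝ≥0∞)) x ≤ U.indicator (fun _ => (7:ℝ≥0∞)) x
          by_cases hx : x ∈ U
          · rw [Set.indicator_of_mem hx]
            have hcu := count_upper hgrid x
            calc ∑ j ∈ I, (B j).indicator (fun _ => (1:ℝ≥0∞)) x
                ≤ ∑ j ∈ Finset.range q, (B j).indicator (fun _ => (1:ℝ≥0∞)) x :=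
                  Finset.sum_le_sum_of_subset (Finset.filter_subset _ _)
              _ = (((Finset.range q).filter
                    (fun k => ‖x - k • ((1 / q : ℝ) : T1)‖ ≤ 2 / q)).card : ℝ≥0∞) := by
                  rw [Finset.card_filter]
                  push_cast
                  apply Finset.sum_congr rfl
                  intro k _
                  by_cases hm : x ∈ B k
                  · have hm' : ‖x - k • ((1 / q : ℝ) : T1)‖ ≤ 2 / q := by
                      have := hm
                      simp only [hB, Metric.mem_closedBall, dist_eq_norm] at this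
                      exact this
                    rw [Set.indicator_of_mem hm]
                    push_cast at hm'
                    rw [if_pos hm']
                  · have hm' : ¬ ‖x - k • ((1 / q : ℝ) : T1)‖ ≤ 2 / q := by
                      intro hh
                      apply hm
                      simp only [hB, Metric.mem_closedBall, dist_eq_norm]
                      exact hh
                    rw [Set.indicator_of_notMem hm]
                    push_cast at hm'
                    rw [if_neg hm']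
              _ ≤ 7 := by exact_mod_cast hcu
          · have h0 : ∀ j ∈ I, (B j).indicator (fun _ => (1:ℝ≥0∞)) x = 0 := by
              intro j hj
              exact Set.indicator_of_notMem (fun hh => hx (hsubU j hj hh)) _
            rw [Finset.sum_eq_zero h0]
            exact zero_le
      _ = 7 * μ₂ U := by rw [lintegral_indicator hU.measurableSet]; simp
  calc μ₁ K * μ₂ Set.univ ≤ (∑ j ∈ I, μ₁ (B j)) * μ₂ Set.univ := by
        gcongr
        exact (measure_mono hcover).trans (measure_biUnion_finset_le _ _)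
    _ = ∑ j ∈ I, μ₁ (B j) * μ₂ Set.univ := by rw [Finset.sum_mul]
    _ ≤ ∑ j ∈ I, ENNReal.ofReal (7 * Real.exp (4 * L)) * μ₁ Set.univ * μ₂ (B j) :=
        Finset.sum_le_sum (fun j _ => comp_ball hf h₁ h₂ hq (c j))
    _ = ENNReal.ofReal (7 * Real.exp (4 * L)) * μ₁ Set.univ * ∑ j ∈ I, μ₂ (B j) := by
        rw [Finset.mul_sum]
    _ ≤ ENNReal.ofReal (7 * Real.exp (4 * L)) * μ₁ Set.univ * (7 * μ₂ U) := by gcongr
    _ = _ := by ring

/-- Any two finite conformal measures are comparable, with a universal constant. -/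
lemma comp_all (hα : Irrational α) (hf : LipschitzWith L f) {μ₁ μ₂ : Measure T1}
    [IsFiniteMeasure μ₁] [IsFiniteMeasure μ₂]
    (h₁ : IsConf (α : T1) f μ₁) (h₂ : IsConf (α : T1) f μ₂) {A : Set T1}
    (hA : MeasurableSet A) :
    μ₁ A * μ₂ Set.univ ≤
      7 * ENNReal.ofReal (7 * Real.exp (4 * L)) * μ₁ Set.univ * μ₂ A := by
  by_cases hz : μ₁ Set.univ = 0
  · have : μ₁ A = 0 := le_antisymm (hz ▸ measure_mono (Set.subset_univ A)) (zero_le)
    rw [this]; simp
  rw [A.measure_eq_iInf_isOpen μ₂]
  have hc0 : 7 * ENNReal.ofReal (7 * Real.exp (4 * L)) * μ₁ Set.univ ≠ 0 := by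
    apply mul_ne_zero _ hz
    apply mul_ne_zero (by norm_num)
    rw [Ne, ENNReal.ofReal_eq_zero, not_le]; positivity
  have hc1 : 7 * ENNReal.ofReal (7 * Real.exp (4 * L)) * μ₁ Set.univ ≠ ⊤ := by
    apply ENNReal.mul_ne_top
    · apply ENNReal.mul_ne_top (by norm_num) ENNReal.ofReal_ne_top
    · exact measure_ne_top _ _
  rw [ENNReal.mul_iInf_of_ne hc0 hc1]
  apply le_iInf
  intro U
  rw [ENNReal.mul_iInf_of_ne hc0 hc1]
  apply le_iInf
  intro hAU
  rw [ENNReal.mul_iInf_of_ne hc0 hc1]
  apply le_iInf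
  intro hU
  rw [hA.measure_eq_iSup_isCompact_of_ne_top (measure_ne_top _ _)]
  rw [ENNReal.iSup_mul]
  apply iSup_le
  intro K
  rw [ENNReal.iSup_mul]
  apply iSup_le
  intro hKA
  rw [ENNReal.iSup_mul]
  apply iSup_le
  intro hK
  exact comp_compact_open hα hf h₁ h₂ hK hU (hKA.trans hAU)

end

end Pool.Agent.N360.QP
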