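import Pool.Agent.N360.QP.Flux

open MeasureTheory Filter Topology ProbabilityTheory
open scoped ENNReal NNReal

namespace Pool.Agent.N360.QP

/-- An environment: a continuous function `p` on the circle with values in `(0,1)`. -/
structure Env where
  /-- probability to jump to the right -/
  p : T1 → ℝ
  cont : Continuous p
  pos : ∀ y, 0 < p y
  lt_one : ∀ y, p y < 1

/-- One-step transition kernel. -/
noncomputable def K (E : Env) (a : T1) : Kernel T1 T1 where
  toFun y := ENNReal.ofReal (E.p y) • Measure.dirac (y + a) +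
    ENNReal.ofReal (1 - E.p y) • Measure.dirac (y - a)
  measurable' := by
    apply Measure.measurable_of_measurable_coe
    intro s hs
    simp only [Measure.add_apply, Measure.smul_apply, smul_eq_mul]
    have hp : Measurable E.p := E.cont.measurable
    apply Measurable.add
    · apply Measurable.mul hp.ennreal_ofReal
      exact (Measure.measurable_coe hs).comp (Measure.measurable_dirac.comp (measurable_add_const a))
    · apply Measurable.mul (measurable_const.sub hp).ennreal_ofReal
      exact (Measure.measurable_coe hs).comp (Measure.measurable_dirac.comp (meas_sub a))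

lemma K_apply (E : Env) (a y : T1) : K E a y = ENNReal.ofReal (E.p y) • Measure.dirac (y + a) +
    ENNReal.ofReal (1 - E.p y) • Measure.dirac (y - a) := rfl

instance (E : Env) (a : T1) : IsMarkovKernel (K E a) := by
  constructor
  intro y
  constructor
  rw [K_apply]
  simp only [Measure.add_apply, Measure.smul_apply, smul_eq_mul, measure_univ, mul_one]
  rw [← ENNReal.ofReal_add (E.pos y).le (by linarith [E.lt_one y])]
  simp

lemma integral_K (E : Env) (a y : T1) (φ : T1 → ℝ) :
    ∫ z, φ z ∂(K E a y) = P E.p a φ y := by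
  rw [K_apply, integral_add_measure, integral_smul_measure, integral_smul_measure, integral_dirac,
    integral_dirac]
  · unfold P
    rw [ENNReal.toReal_ofReal (E.pos y).le, ENNReal.toReal_ofReal (by linarith [E.lt_one y])]
    rfl
  · apply Integrable.smul_measure _ ENNReal.ofReal_ne_top
    exact integrable_dirac (by simp)
  · apply Integrable.smul_measure _ ENNReal.ofReal_ne_top
    exact integrable_dirac (by simp)

lemma P_cont {p : T1 → ℝ} (hp : Continuous p) (a : T1) {φ : T1 → ℝ} (hφ : Continuous φ) :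
    Continuous (P p a φ) := by
  unfold P; fun_prop

/-- iterates of the kernel -/
noncomputable def Kn (E : Env) (a : T1) : ℕ → Kernel T1 T1
  | 0 => Kernel.id
  | n + 1 => K E a ∘ₖ Kn E a n

instance (E : Env) (a : T1) (n : ℕ) : IsMarkovKernel (Kn E a n) := by
  induction n with
  | zero => unfold Kn; infer_instance
  | succ n ih => unfold Kn; infer_instance

lemma Kn_succ (E : Env) (a : T1) (n : ℕ) {φ : T1 → ℝ} (hφ : Continuous φ) (y : T1) :
    ∫ z, φ z ∂(Kn E a (n + 1) y) = ∫ z, P E.p a φ z ∂(Kn E a n y) := by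
  change ∫ z, φ z ∂((K E a ∘ₖ Kn E a n) y) = _
  rw [Kernel.integral_comp]
  · simp_rw [integral_K]
  · have : IsFiniteMeasure ((K E a ∘ₖ Kn E a n) y) := by infer_instance
    exact integrable_cont _ hφ

/-- Averaged laws. -/
noncomputable def avg (E : Env) (a : T1) (n : ℕ) : Measure T1 :=
  ENNReal.ofReal (1 / ((n:ℝ) + 1)) • ∑ k ∈ Finset.range (n + 1), Kn E a k 0

instance (E : Env) (a : T1) (n : ℕ) : IsProbabilityMeasure (avg E a n) := by
  constructor
  unfold avg
  rw [Measure.smul_apply, Measure.finsetSum_apply]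
  simp only [measure_univ, Finset.sum_const, Finset.card_range, nsmul_eq_mul, mul_one, smul_eq_mul]
  have : ((n + 1 : ℕ) : ℝ≥0∞) = ENNReal.ofReal ((n:ℝ) + 1) := by
    rw [ENNReal.ofReal_add (by positivity) (by norm_num)]
    simp
  rw [this, ← ENNReal.ofReal_mul (by positivity)]
  rw [one_div, inv_mul_cancel₀ (by positivity)]
  simp

lemma integral_avg (E : Env) (a : T1) (n : ℕ) {φ : T1 → ℝ} (hφ : Continuous φ) :
    ∫ z, φ z ∂(avg E a n) =
      (1 / ((n:ℝ) + 1)) * ∑ k ∈ Finset.range (n + 1), ∫ z, φ z ∂(Kn E a k 0) := by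
  unfold avg
  rw [integral_smul_measure, integral_finsetSum_measure]
  · rw [ENNReal.toReal_ofReal (by positivity), smul_eq_mul]
  · intro k _
    exact integrable_cont _ hφ

lemma avg_diff (E : Env) (a : T1) (n : ℕ) {φ : T1 → ℝ} (hφ : Continuous φ) {C : ℝ}
    (hC : ∀ x, |φ x| ≤ C) :
    |∫ z, P E.p a φ z ∂(avg E a n) - ∫ z, φ z ∂(avg E a n)| ≤ 2 * C / ((n:ℝ) + 1) := by
  rw [integral_avg E a n (P_cont E.cont a hφ), integral_avg E a n hφ, ← mul_sub]
  simp_rw [← Kn_succ E a _ hφ]
  rw [← Finset.sum_sub_distrib, Finset.sum_range_sub (fun k => ∫ z, φ z ∂(Kn E a k 0))]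
  have hb : ∀ k, |∫ z, φ z ∂(Kn E a k 0)| ≤ C := by
    intro k
    have := norm_integral_le_of_norm_le_const (μ := Kn E a k 0) (f := φ) (C := C)
      (Eventually.of_forall (fun x => by rw [Real.norm_eq_abs]; exact hC x))
    simpa using this
  rw [abs_mul, abs_of_nonneg (by positivity : (0:ℝ) ≤ 1 / ((n:ℝ) + 1))]
  have h3 := (abs_sub (∫ z, φ z ∂(Kn E a (n + 1) 0)) (∫ z, φ z ∂(Kn E a 0 0))).trans
    (add_le_add (hb (n + 1)) (hb 0))
  calc 1 / ((n:ℝ) + 1) * |∫ z, φ z ∂(Kn E a (n + 1) 0) - ∫ z, φ z ∂(Kn E a 0 0)|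
      ≤ 1 / ((n:ℝ) + 1) * (C + C) := mul_le_mul_of_nonneg_left h3 (by positivity)
    _ = 2 * C / ((n:ℝ) + 1) := by ring

/-- Existence of a stationary probability measure (Krylov–Bogoliubov). -/
theorem exists_stationary (E : Env) (a : T1) :
    ∃ ν : Measure T1, IsProbabilityMeasure ν ∧ Stationary E.p a ν := by
  set m : ℕ → ProbabilityMeasure T1 := fun n => ⟨avg E a n, inferInstance⟩ with hm
  obtain ⟨ν, -, hν⟩ := isCompact_univ.ultrafilter_le_nhds ((hyperfilter ℕ).map m) (by simp)
  have hν' : Tendsto m (hyperfilter ℕ : Filter ℕ) (𝓝 ν) := hν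
  refine ⟨ν, inferInstance, ?_⟩
  intro φ hφ
  have h1 := (ProbabilityMeasure.tendsto_iff_forall_integral_tendsto.mp hν')
    (BoundedContinuousFunction.mkOfCompact ⟨φ, hφ⟩)
  have h2 := (ProbabilityMeasure.tendsto_iff_forall_integral_tendsto.mp hν')
    (BoundedContinuousFunction.mkOfCompact ⟨P E.p a φ, P_cont E.cont a hφ⟩)
  simp only [BoundedContinuousFunction.mkOfCompact_apply, ContinuousMap.coe_mk] at h1 h2
  have h3 := h2.sub h1
  obtain ⟨C, hC⟩ := (isCompact_range hφ).isBounded.exists_norm_le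
  have hC' : ∀ x, |φ x| ≤ C := fun x => hC _ ⟨x, rfl⟩
  have h4 : Tendsto (fun n : ℕ => ∫ z, P E.p a φ z ∂(m n : Measure T1) -
      ∫ z, φ z ∂(m n : Measure T1)) atTop (𝓝 0) := by
    apply squeeze_zero_norm (a := fun n : ℕ => 2 * C / ((n:ℝ) + 1))
    · intro n
      exact avg_diff E a n hφ hC'
    · exact tendsto_const_nhds.div_atTop (tendsto_natCast_atTop_atTop.atTop_add tendsto_const_nhds)
  have h5 := h4.mono_left (Nat.hyperfilter_le_atTop)
  have h6 := tendsto_nhds_unique h3 h5
  linarith

end Pool.Agent.N360.QP
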