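import Pool.Agent.N360.QP.Path

open MeasureTheory Filter Topology ProbabilityTheory
open scoped ENNReal NNReal

namespace Pool.Agent.N360.QP

/-- The time shift by `k` on path space. -/
def shift (k : ℕ) (x : ℕ → T1) : ℕ → T1 := fun i => x (k + i)

lemma meas_shift (k : ℕ) : Measurable (shift k) :=
  measurable_pi_lambda _ (fun _ => measurable_pi_apply _)

/-- Mixing for the time shift. -/
def IsMixing (Q : Measure (ℕ → T1)) : Prop :=
  ∀ A B : Set (ℕ → T1), MeasurableSet A → MeasurableSet B →
    Tendsto (fun k => Q (A ∩ shift k ⁻¹' B)) atTop (𝓝 (Q A * Q B))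

/-- finite-dimensional boxes -/
def box (m : ℕ) (t : ℕ → Set T1) : Set (ℕ → T1) := {x | ∀ i < m, x i ∈ t i}

/-- all measurable boxes -/
def boxes : Set (Set (ℕ → T1)) := {s | ∃ m t, (∀ i, MeasurableSet (t i)) ∧ s = box m t}

lemma meas_box (m : ℕ) (t : ℕ → Set T1) (ht : ∀ i, MeasurableSet (t i)) :
    MeasurableSet (box m t) := by
  have : box m t = ⋂ i ∈ Finset.range m, (fun x : ℕ → T1 => x i) ⁻¹' (t i) := by
    ext x; simp [box]
  rw [this]
  exact Finset.measurableSet_biInter _ (fun i _ => (measurable_pi_apply i) (ht i))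

lemma boxes_pi : IsPiSystem boxes := by
  classical
  rintro _ ⟨m, t, ht, rfl⟩ _ ⟨m', t', ht', rfl⟩ _
  refine ⟨max m m', fun i => (if i < m then t i else Set.univ) ∩
    (if i < m' then t' i else Set.univ), ?_, ?_⟩
  · intro i
    apply MeasurableSet.inter
    · split_ifs
      · exact ht i
      · exact MeasurableSet.univ
    · split_ifs
      · exact ht' i
      · exact MeasurableSet.univ
  · ext x
    simp only [box, Set.mem_inter_iff, Set.mem_ofPred_eq]
    constructor
    · rintro ⟨h1, h2⟩ i _
      constructor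
      · split_ifs with h
        · exact h1 i h
        · trivial
      · split_ifs with h
        · exact h2 i h
        · trivial
    · intro h
      constructor
      · intro i hi
        have := (h i (lt_of_lt_of_le hi (le_max_left _ _))).1
        rwa [if_pos hi] at this
      · intro i hi
        have := (h i (lt_of_lt_of_le hi (le_max_right _ _))).2
        rwa [if_pos hi] at this

lemma boxes_gen : (MeasurableSpace.pi : MeasurableSpace (ℕ → T1)) =
    MeasurableSpace.generateFrom boxes := by
  classical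
  apply le_antisymm
  · apply iSup_le
    intro i
    rw [MeasurableSpace.comap_le_iff_le_map]
    intro s hs
    apply MeasurableSpace.measurableSet_generateFrom
    refine ⟨i + 1, fun j => if j = i then s else Set.univ, ?_, ?_⟩
    · intro j
      change MeasurableSet (if j = i then s else Set.univ)
      split_ifs
      · exact hs
      · exact MeasurableSet.univ
    · ext x
      simp only [box, Set.mem_ofPred_eq, Set.mem_preimage]
      constructor
      · intro h j hj
        split_ifs with hji
        · rw [hji]; exact h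
        · trivial
      · intro h
        have := h i (Nat.lt_succ_self i)
        rwa [if_pos rfl] at this
  · apply MeasurableSpace.generateFrom_le
    rintro _ ⟨m, t, ht, rfl⟩
    exact meas_box m t ht

section
variable {E : Env} {α : ℝ} {ν : Measure T1} [IsProbabilityMeasure ν]

lemma ind_prod (m : ℕ) (t : ℕ → Set T1) (x : ℕ → T1) :
    (box m t).indicator (fun _ => (1:ℝ)) x =
      ∏ i ∈ Finset.range m, (t i).indicator (fun _ => (1:ℝ)) (x i) := by
  by_cases h : x ∈ box m t
  · rw [Set.indicator_of_mem h]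
    symm
    apply Finset.prod_eq_one
    intro i hi
    rw [Set.indicator_of_mem (h i (Finset.mem_range.mp hi))]
  · rw [Set.indicator_of_notMem h]
    simp only [box, Set.mem_ofPred_eq, not_forall] at h
    obtain ⟨i, hi, hx⟩ := h
    symm
    apply Finset.prod_eq_zero (Finset.mem_range.mpr hi)
    rw [Set.indicator_of_notMem hx]

lemma real_shift_box (h : IsConf (α : T1) (coc E.p α) ν) (m k : ℕ) (t : ℕ → Set T1)
    (ht : ∀ i, MeasurableSet (t i)) :
    (law E α ν).real (shift k ⁻¹' box m t) = ∫ y, G E α m t y ∂ν := by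
  have h1 := cyl (E := E) (a := (α:T1)) (ν := ν) m t ht k (F := fun _ => 1)
    ⟨measurable_const, 1, fun _ => by simp⟩
  simp only [one_mul] at h1
  rw [one_point h (G_BM m t ht) k] at h1
  rw [← h1, ← integral_indicator_one (meas_shift k (meas_box m t ht))]
  congr 1
  ext x
  have : (shift k ⁻¹' box m t).indicator (1 : (ℕ → T1) → ℝ) x =
      (box m t).indicator (fun _ => (1:ℝ)) (shift k x) := rfl
  rw [this, ind_prod]
  rfl

/-- The law of the chain is invariant under the time shift. -/
lemma law_shift (h : IsConf (α : T1) (coc E.p α) ν) (k : ℕ) :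
    (law E α ν).map (shift k) = law E α ν := by
  have : IsProbabilityMeasure ((law E α ν).map (shift k)) :=
    Measure.isProbabilityMeasure_map (meas_shift k).aemeasurable
  apply ext_of_generate_finite boxes boxes_gen boxes_pi
  · rintro _ ⟨m, t, ht, rfl⟩
    rw [Measure.map_apply (meas_shift k) (meas_box m t ht)]
    have h1 := real_shift_box h m k t ht
    have h0 := real_shift_box h m 0 t ht
    have e0 : shift 0 ⁻¹' box m t = box m t := by
      ext x
      have : shift 0 x = x := by ext i; simp [shift]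
      simp [this]
    rw [e0, ← h1] at h0
    exact ((ENNReal.toReal_eq_toReal_iff' (measure_ne_top _ _) (measure_ne_top _ _)).mp h0).symm
  · simp

lemma sq_int_le {Ω : Type*} [MeasurableSpace Ω] {Q : Measure Ω} [IsProbabilityMeasure Q]
    {g : Ω → ℝ} (hg : Measurable g) {C : ℝ} (hC : ∀ x, |g x| ≤ C) :
    (∫ x, g x ∂Q) ^ 2 ≤ ∫ x, g x ^ 2 ∂Q := by
  set c := ∫ x, g x ∂Q with hc
  have i1 : Integrable g Q := Integrable.of_bound hg.aestronglyMeasurable C
    (Eventually.of_forall (fun x => by rw [Real.norm_eq_abs]; exact hC x))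
  have i2 : Integrable (fun x => g x ^ 2) Q := Integrable.of_bound
    (hg.pow_const 2).aestronglyMeasurable (C ^ 2)
    (Eventually.of_forall (fun x => by
      rw [Real.norm_eq_abs, abs_pow]; exact pow_le_pow_left₀ (abs_nonneg _) (hC x) 2))
  have h1 : 0 ≤ ∫ x, (g x - c) ^ 2 ∂Q := integral_nonneg (fun x => sq_nonneg _)
  have e1 : ∀ x, (g x - c) ^ 2 = g x ^ 2 - (2 * c) * g x + c ^ 2 := by intro x; ring
  simp_rw [e1] at h1
  have i3 : Integrable (fun x => g x ^ 2 - 2 * c * g x) Q := i2.sub (i1.const_mul _)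
  rw [integral_add i3 (integrable_const _),
    integral_sub i2 (i1.const_mul _), integral_const_mul, ← hc] at h1
  simp at h1
  nlinarith

lemma mx_boxes (hα : Irrational α) (h : IsConf (α : T1) (coc E.p α) ν)
    {L : ℝ≥0} (hL : LipschitzWith L E.p) (n m : ℕ) (s t : ℕ → Set T1)
    (hs : ∀ i, MeasurableSet (s i)) (ht : ∀ i, MeasurableSet (t i)) :
    Mx (law E α ν) shift (box n s) (box m t) := by
  set F0 : ((i : Finset.Iic n) → T1) → ℝ := fun y =>
    ∏ i : Fin n, (s i).indicator (fun _ => (1:ℝ)) (y ⟨i, Finset.mem_Iic.mpr i.2.le⟩) with hF0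
  have hF0res : ∀ x : ℕ → T1, F0 (res n x) = (box n s).indicator (fun _ => (1:ℝ)) x := by
    intro x
    rw [ind_prod, Finset.prod_range]
    rfl
  have hF0le : ∀ y, |F0 y| ≤ 1 := by
    intro y
    simp only [hF0, Finset.abs_prod]
    apply Finset.prod_le_one
    · intro i _; exact abs_nonneg _
    · intro i _
      by_cases hy : y ⟨i, Finset.mem_Iic.mpr i.2.le⟩ ∈ s i <;> simp [hy]
  have hF0m : Measurable F0 := by
    apply Finset.measurable_fun_prod
    intro i _
    exact (measurable_const.indicator (hs i)).comp (measurable_pi_apply _)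
  have hF0B : BMn n F0 := ⟨hF0m, 1, hF0le⟩
  set g : T1 → ℝ := G E α m t with hg
  have hgB : BM g := G_BM m t ht
  set c := ∫ y, g y ∂ν with hc
  have hB : (law E α ν).real (box m t) = c := by
    have h0 := real_shift_box h m 0 t ht
    have e0 : shift 0 ⁻¹' box m t = box m t := by
      ext x
      have : shift 0 x = x := by ext i; simp [shift]
      simp [this]
    rw [e0] at h0
    exact h0
  have hA : ∫ x, F0 (res n x) ∂(law E α ν) = (law E α ν).real (box n s) := by
    simp_rw [hF0res]
    exact integral_indicator_one (meas_box n s hs)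
  have hAB : ∀ j, (law E α ν).real (box n s ∩ shift (j + n) ⁻¹' box m t) =
      ∫ x, F0 (res n x) * (P E.p α)^[j] g (x n) ∂(law E α ν) := by
    intro j
    rw [← markov_iter n j hF0B hgB]
    have h1 := cyl (E := E) (a := (α:T1)) (ν := ν) m t ht (n + j)
      (hF0B.lift (Nat.le_add_right n j))
    simp only [prj_res] at h1
    rw [← h1, ← integral_indicator_one
      ((meas_box n s hs).inter (meas_shift _ (meas_box m t ht)))]
    congr 1
    ext x
    rw [hF0res]
    have e1 : (box n s ∩ shift (j + n) ⁻¹' box m t).indicator (1 : (ℕ → T1) → ℝ) x =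
        (box n s).indicator (fun _ => (1:ℝ)) x *
          (box m t).indicator (fun _ => (1:ℝ)) (shift (j + n) x) := by
      by_cases h1 : x ∈ box n s <;> by_cases h2 : shift (j + n) x ∈ box m t <;>
        simp [h1, h2]
    rw [e1, ind_prod m t]
    simp only [shift, add_comm j n]
  unfold Mx
  rw [← tendsto_add_atTop_iff_nat n]
  simp_rw [hAB]
  rw [hB, ← hA]
  have hconv := L2_conv hα h hL hgB
  rw [← hc] at hconv
  rw [tendsto_iff_norm_sub_tendsto_zero]
  have hbound : ∀ j, ‖∫ x, F0 (res n x) * (P E.p α)^[j] g (x n) ∂(law E α ν) -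
      (∫ x, F0 (res n x) ∂(law E α ν)) * c‖ ≤
        Real.sqrt (∫ x, ((P E.p α)^[j] g x - c) ^ 2 ∂ν) := by
    intro j
    have hgj : BM (fun y => (P E.p α)^[j] g y - c) := (hgB.Pn j).sub (BM.const c)
    obtain ⟨D, hD⟩ := hgj.bdd
    have hD0 : 0 ≤ D := (abs_nonneg _).trans (hD 0)
    obtain ⟨D', hD'⟩ := (hgB.Pn (E := E) (a := (α:T1)) j).bdd
    have m0 : Measurable (fun x : ℕ → T1 => F0 (res n x)) := hF0m.comp (meas_res n)
    have m1 : Measurable (fun x : ℕ → T1 => F0 (res n x) * ((P E.p α)^[j] g (x n) - c)) :=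
      m0.mul (hgj.meas.comp (measurable_pi_apply n))
    have m2 : Measurable (fun x : ℕ → T1 => F0 (res n x) * (P E.p α)^[j] g (x n)) :=
      m0.mul ((hgB.Pn j).meas.comp (measurable_pi_apply n))
    have i0 : Integrable (fun x : ℕ → T1 => F0 (res n x)) (law E α ν) :=
      Integrable.of_bound m0.aestronglyMeasurable 1
        (Eventually.of_forall (fun x => by rw [Real.norm_eq_abs]; exact hF0le _))
    have i2 : Integrable (fun x : ℕ → T1 => F0 (res n x) * (P E.p α)^[j] g (x n)) (law E α ν) :=
      Integrable.of_bound m2.aestronglyMeasurable (1 * D')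
        (Eventually.of_forall (fun x => by
          rw [Real.norm_eq_abs, abs_mul]
          exact mul_le_mul (hF0le _) (hD' _) (abs_nonneg _) (by norm_num)))
    have e1 : ∫ x, F0 (res n x) * (P E.p α)^[j] g (x n) ∂(law E α ν) -
      (∫ x, F0 (res n x) ∂(law E α ν)) * c =
        ∫ x, F0 (res n x) * ((P E.p α)^[j] g (x n) - c) ∂(law E α ν) := by
      rw [← integral_mul_const, ← integral_sub i2 (i0.mul_const c)]
      congr 1
      ext x
      ring
    rw [e1, Real.norm_eq_abs]
    apply Real.abs_le_sqrt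
    have hb1 : ∀ x : ℕ → T1, |F0 (res n x) * ((P E.p α)^[j] g (x n) - c)| ≤ D := by
      intro x
      rw [abs_mul]
      calc |F0 (res n x)| * |(P E.p α)^[j] g (x n) - c| ≤ 1 * D :=
            mul_le_mul (hF0le _) (hD _) (abs_nonneg _) (by norm_num)
        _ = D := one_mul _
    refine (sq_int_le m1 hb1).trans ?_
    rw [← one_point h hgj.sq n]
    apply integral_mono
    · apply Integrable.of_bound (m1.pow_const 2).aestronglyMeasurable (D ^ 2)
      refine Eventually.of_forall (fun x => ?_)
      rw [Real.norm_eq_abs, abs_pow]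
      exact pow_le_pow_left₀ (abs_nonneg _) (hb1 x) 2
    · have m3 : Measurable (fun x : ℕ → T1 => ((P E.p α)^[j] g (x n) - c) ^ 2) :=
        (hgj.meas.comp (measurable_pi_apply n)).pow_const 2
      refine Integrable.of_bound m3.aestronglyMeasurable (D ^ 2)
        (Eventually.of_forall (fun x => ?_))
      rw [Real.norm_eq_abs, abs_pow]
      exact pow_le_pow_left₀ (abs_nonneg _) (hD _) 2
    · intro x
      change (F0 (res n x) * ((P E.p α)^[j] g (x n) - c)) ^ 2 ≤ ((P E.p α)^[j] g (x n) - c) ^ 2
      rw [mul_pow]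
      have : F0 (res n x) ^ 2 ≤ 1 := by
        rw [← sq_abs]
        exact pow_le_one₀ (abs_nonneg _) (hF0le _)
      nlinarith [sq_nonneg ((P E.p α)^[j] g (x n) - c)]
  have hsq : Tendsto (fun j => Real.sqrt (∫ x, ((P E.p α)^[j] g x - c) ^ 2 ∂ν)) atTop (𝓝 0) := by
    have := (Real.continuous_sqrt.tendsto 0).comp hconv
    rwa [Real.sqrt_zero] at this
  exact squeeze_zero (fun j => norm_nonneg _) hbound hsq

/-- The stationary chain is mixing. -/
theorem mixing (hα : Irrational α) (h : IsConf (α : T1) (coc E.p α) ν)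
    {L : ℝ≥0} (hL : LipschitzWith L E.p) : IsMixing (law E α ν) := by
  intro A B hA hB
  have key := mx_ext (Q := law E α ν) (θ := shift) meas_shift (by
      intro k B hB
      unfold Measure.real
      rw [← Measure.map_apply (meas_shift k) hB, law_shift h]) (C := boxes) boxes_gen boxes_pi
    (by rintro _ ⟨m, t, ht, rfl⟩; exact meas_box m t ht)
    (by
      rintro _ ⟨n, s, hs, rfl⟩ _ ⟨m, t, ht, rfl⟩
      exact mx_boxes hα h hL n m s t hs ht) A B hA hB
  unfold Mx at key
  have h1 : Tendsto (fun k => ENNReal.ofReal ((law E α ν).real (A ∩ shift k ⁻¹' B))) atTop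
      (𝓝 (ENNReal.ofReal ((law E α ν).real A * (law E α ν).real B))) :=
    ENNReal.tendsto_ofReal key
  rw [ENNReal.ofReal_mul measureReal_nonneg] at h1
  have e : ∀ S, ENNReal.ofReal ((law E α ν).real S) = law E α ν S :=
    fun S => ENNReal.ofReal_toReal (measure_ne_top _ _)
  simp_rw [e] at h1
  exact h1

end

/-- Symmetric environments. -/
def Env.Symm (E : Env) : Prop :=
  ∫ x : T1, Real.log (E.p x) = ∫ x : T1, Real.log (1 - E.p x)

/-- `α` is Diophantine. -/
def Diophantine (α : ℝ) : Prop :=
  ∃ γ > 0, ∃ τ ≥ (0:ℝ), ∀ (p : ℤ) (q : ℕ), 1 ≤ q → γ / (q:ℝ) ^ (2 + τ) ≤ |α - p / q|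

/-- `α` is Liouville: irrational and not Diophantine. -/
def IsLiouville (α : ℝ) : Prop := Irrational α ∧ ¬ Diophantine α

/-- smooth functions on the circle -/
def SmoothT (p : T1 → ℝ) : Prop := ∀ n : ℕ, ContDiff ℝ n (fun x : ℝ => p (x : T1))

lemma lip_of_smooth {p : T1 → ℝ} (h : SmoothT p) : ∃ L : ℝ≥0, LipschitzWith L p := by
  set f : ℝ → ℝ := fun x => p (x : T1) with hf
  have hd : Differentiable ℝ f := (h 1).differentiable (by norm_num)
  have hdc : Continuous (deriv f) := (h 1).continuous_deriv (by norm_num)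
  have hper : Function.Periodic f 1 := by
    intro x
    simp only [hf]
    congr 1
    simp
  have hperd : Function.Periodic (deriv f) 1 := by
    intro x
    have e : f = fun y => f (y + 1) := by ext y; rw [hper y]
    conv_rhs => rw [e]
    rw [deriv_comp_add_const]
  obtain ⟨C, hC⟩ : ∃ C, ∀ x, |deriv f x| ≤ C := by
    obtain ⟨C, hC⟩ := (isCompact_Icc (a := (0:ℝ)) (b := 1)).exists_bound_of_continuousOn
      hdc.continuousOn
    refine ⟨C, fun x => ?_⟩
    obtain ⟨y, hy, hxy⟩ := hperd.exists_mem_Ico₀ one_pos x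
    rw [hxy]
    exact hC y ⟨hy.1, hy.2.le⟩
  have hC0 : 0 ≤ C := (abs_nonneg _).trans (hC 0)
  refine ⟨C.toNNReal, LipschitzWith.of_dist_le_mul (fun a b => ?_)⟩
  have hlip : LipschitzWith C.toNNReal f := by
    apply lipschitzWith_of_nnnorm_deriv_le hd
    intro x
    rw [← NNReal.coe_le_coe, coe_nnnorm, Real.norm_eq_abs, Real.coe_toNNReal _ hC0]
    exact hC x
  obtain ⟨x, rfl⟩ := QuotientAddGroup.mk_surjective a
  obtain ⟨y, rfl⟩ := QuotientAddGroup.mk_surjective b
  have h1 := hlip.dist_le_mul x (y + round (x - y))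
  have e1 : f (y + round (x - y)) = p (y : T1) := by
    simp only [hf]
    congr 1
    simp
  rw [e1] at h1
  have e2 : dist x (y + round (x - y)) = dist ((x:ℝ) : T1) ((y:ℝ) : T1) := by
    rw [dist_eq_norm ((x:ℝ) : T1), ← AddCircle.coe_sub, UnitAddCircle.norm_eq, Real.dist_eq]
    congr 1
    ring
  rw [e2] at h1
  exact h1

/-- Main theorem, for every irrational rotation number and Lipschitz environment. -/
theorem main (E : Env) (α : ℝ) (hα : Irrational α) (hL : ∃ L : ℝ≥0, LipschitzWith L E.p)
    (hs : E.Symm) :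
    (∃! ν : Measure T1, IsProbabilityMeasure ν ∧ Stationary E.p (α : T1) ν) ∧
    (∀ ν : Measure T1, IsProbabilityMeasure ν → Stationary E.p (α : T1) ν →
      IsMixing (law E (α : T1) ν)) := by
  obtain ⟨L, hL⟩ := hL
  refine ⟨?_, ?_⟩
  · obtain ⟨ν, hν, hst⟩ := exists_stationary E (α : T1)
    refine ⟨ν, ⟨hν, hst⟩, ?_⟩
    rintro μ ⟨hμ, hμst⟩
    obtain ⟨L', hL'⟩ := coc_lip E (α : T1) hL
    exact conf_unique hα hL' (conf_of_stationary hα E.cont E.pos E.lt_one hs hμst)
      (conf_of_stationary hα E.cont E.pos E.lt_one hs hst)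
  · intro ν hν hst
    exact mixing hα (conf_of_stationary hα E.cont E.pos E.lt_one hs hst) hL

end Pool.Agent.N360.QP
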