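import Pool.Agent.N360.QP.Uniq

open MeasureTheory Filter Topology
open scoped ENNReal NNReal

namespace Pool.Agent.N360.QP

/-- The transition operator of the walk. -/
noncomputable def P (p : T1 → ℝ) (a : T1) (φ : T1 → ℝ) (y : T1) : ℝ :=
  p y * φ (y + a) + (1 - p y) * φ (y - a)

/-- Stationary measure. -/
def Stationary (p : T1 → ℝ) (a : T1) (ν : Measure T1) : Prop :=
  ∀ φ : T1 → ℝ, Continuous φ → ∫ y, P p a φ y ∂ν = ∫ y, φ y ∂ν

instance : IsProbabilityMeasure (volume : Measure T1) := ⟨UnitAddCircle.measure_univ⟩

lemma integrable_cont (μ : Measure T1) [IsFiniteMeasure μ] {φ : T1 → ℝ} (h : Continuous φ) :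
    Integrable φ μ := by
  apply h.integrable_of_hasCompactSupport
  exact HasCompactSupport.of_compactSpace φ

lemma jensen_exp {g : T1 → ℝ} (hg : Continuous g) :
    Real.exp (∫ x : T1, g x) ≤ ∫ x : T1, Real.exp (g x) := by
  set m := ∫ x : T1, g x with hm
  have h1 : ∀ x, Real.exp m * (1 + (g x - m)) ≤ Real.exp (g x) := by
    intro x
    have h2 := Real.add_one_le_exp (g x - m)
    have h3 : Real.exp (g x) = Real.exp m * Real.exp (g x - m) := by
      rw [← Real.exp_add]; congr 1; ring
    rw [h3]
    apply mul_le_mul_of_nonneg_left _ (Real.exp_pos _).le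
    linarith
  have h4 : ∫ x : T1, Real.exp m * (1 + (g x - m)) ≤ ∫ x : T1, Real.exp (g x) := by
    apply integral_mono
    · exact integrable_cont _ (by fun_prop)
    · exact integrable_cont _ (by fun_prop)
    · exact h1
  have h5 : ∫ x : T1, Real.exp m * (1 + (g x - m)) = Real.exp m := by
    have e : ∀ x, 1 + (g x - m) = g x + (1 - m) := fun x => by ring
    simp_rw [e]
    rw [integral_const_mul, integral_add (integrable_cont _ hg) (integrable_const _), ← hm]
    simp
  rw [h5] at h4
  exact h4

/-- The flux functional. -/
noncomputable def J (p : T1 → ℝ) (a : T1) (ν : Measure T1) (φ : T1 → ℝ) : ℝ :=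
  ∫ y, p y * φ y ∂ν - ∫ y, (1 - p y) * φ (y - a) ∂ν

lemma J_shift {p : T1 → ℝ} (hp : Continuous p) {a : T1} {ν : Measure T1} [IsFiniteMeasure ν]
    (h : Stationary p a ν) {φ : T1 → ℝ} (hφ : Continuous φ) :
    J p a ν (fun y => φ (y + a)) = J p a ν φ := by
  have h1 := h φ hφ
  unfold P at h1
  rw [integral_add (integrable_cont _ (by fun_prop)) (integrable_cont _ (by fun_prop))] at h1
  unfold J
  have h2 : ∫ y, (1 - p y) * φ (y - a + a) ∂ν = ∫ y, φ y ∂ν - ∫ y, p y * φ y ∂ν := by
    rw [← integral_sub (integrable_cont _ hφ) (integrable_cont _ (by fun_prop))]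
    congr 1
    ext y
    rw [sub_add_cancel]; ring
  rw [h2, ← h1]
  ring

lemma J_const {α : ℝ} (hα : Irrational α) {p : T1 → ℝ} (hp : Continuous p) {ν : Measure T1}
    [IsFiniteMeasure ν] (h : Stationary p (α : T1) ν) {φ : T1 → ℝ} (hφ : Continuous φ) (t : T1) :
    J p α ν (fun y => φ (y + t)) = J p α ν φ := by
  set a : T1 := (α : T1) with ha
  set G : T1 → ℝ := fun t => J p a ν (fun y => φ (y + t)) with hG
  have hcont : Continuous G := by
    have hb : ∃ C, ∀ x, |φ x| ≤ C := by
      obtain ⟨C, hC⟩ := (isCompact_range hφ).isBounded.exists_norm_le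
      exact ⟨C, fun x => hC _ ⟨x, rfl⟩⟩
    have hbp : ∃ C, ∀ x, |p x| ≤ C := by
      obtain ⟨C, hC⟩ := (isCompact_range hp).isBounded.exists_norm_le
      exact ⟨C, fun x => hC _ ⟨x, rfl⟩⟩
    obtain ⟨C, hC⟩ := hb
    obtain ⟨D, hD⟩ := hbp
    have hC0 : 0 ≤ C := (abs_nonneg _).trans (hC 0)
    have hD0 : 0 ≤ D := (abs_nonneg _).trans (hD 0)
    have c1 : Continuous (fun t => ∫ y, p y * φ (y + t) ∂ν) := by
      apply continuous_of_dominated (bound := fun _ => D * C)
      · intro t
        exact (by fun_prop : Continuous fun y => p y * φ (y + t)).aestronglyMeasurable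
      · intro t
        refine Eventually.of_forall (fun y => ?_)
        rw [Real.norm_eq_abs, abs_mul]
        exact mul_le_mul (hD _) (hC _) (abs_nonneg _) hD0
      · exact integrable_const _
      · refine Eventually.of_forall (fun y => ?_)
        fun_prop
    have c2 : Continuous (fun t => ∫ y, (1 - p y) * φ (y - a + t) ∂ν) := by
      apply continuous_of_dominated (bound := fun _ => (1 + D) * C)
      · intro t
        exact (by fun_prop : Continuous fun y => (1 - p y) * φ (y - a + t)).aestronglyMeasurable
      · intro t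
        refine Eventually.of_forall (fun y => ?_)
        rw [Real.norm_eq_abs, abs_mul]
        apply mul_le_mul _ (hC _) (abs_nonneg _) (by linarith)
        calc |1 - p y| ≤ |1| + |p y| := abs_sub _ _
          _ ≤ 1 + D := by rw [abs_one]; linarith [hD y]
      · exact integrable_const _
      · refine Eventually.of_forall (fun y => ?_)
        fun_prop
    exact c1.sub c2
  have hstep : ∀ t, G (t + a) = G t := by
    intro t
    have := J_shift hp h (φ := fun y => φ (y + t)) (by fun_prop)
    simp only [hG]
    rw [← this]
    congr 1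
    ext y
    congr 1
    abel
  have hnat : ∀ (n : ℤ), G (n • a) = G 0 := by
    intro n
    induction n using Int.induction_on with
    | zero => simp
    | succ k ih => rw [add_smul, one_smul, hstep, ih]
    | pred k ih =>
      rw [← ih, sub_smul, one_smul, ← hstep]
      congr 1; abel
  have hdense : DenseRange (fun x : ℤ => x • a) := by
    rw [ha]
    apply AddCircle.denseRange_zsmul_coe_iff.mpr
    simpa using hα
  have hfun : G = fun _ => G 0 := by
    apply hdense.equalizer hcont continuous_const
    ext n
    exact hnat n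
  have := congrFun hfun t
  simp only [hG] at this
  simpa using this

lemma J_eq {α : ℝ} (hα : Irrational α) {p : T1 → ℝ} (hp : Continuous p) {ν : Measure T1}
    [IsFiniteMeasure ν] (h : Stationary p (α : T1) ν) {φ : T1 → ℝ} (hφ : Continuous φ) :
    J p α ν φ = J p α ν (fun _ => 1) * ∫ x : T1, φ x := by
  set a : T1 := (α : T1) with ha
  have h1 : J p a ν φ = ∫ t : T1, J p a ν (fun y => φ (y + t)) := by
    simp_rw [ha, J_const hα hp h hφ]
    simp
  rw [h1]
  unfold J
  have e1 : ∫ t : T1, ∫ y, p y * φ (y + t) ∂ν = (∫ y, p y ∂ν) * ∫ x : T1, φ x := by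
    rw [integral_integral_swap]
    · have : ∀ y, ∫ t : T1, p y * φ (y + t) = p y * ∫ x : T1, φ x := by
        intro y
        rw [integral_const_mul, integral_add_left_eq_self (fun x => φ x) y]
      simp_rw [this]
      rw [integral_mul_const]
    · apply Continuous.integrable_of_hasCompactSupport
      · change Continuous (fun z : T1 × T1 => p z.2 * φ (z.2 + z.1))
        fun_prop
      · exact HasCompactSupport.of_compactSpace _
  have e2 : ∫ t : T1, ∫ y, (1 - p y) * φ (y - a + t) ∂ν =
      (∫ y, (1 - p y) ∂ν) * ∫ x : T1, φ x := by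
    rw [integral_integral_swap]
    · have : ∀ y, ∫ t : T1, (1 - p y) * φ (y - a + t) = (1 - p y) * ∫ x : T1, φ x := by
        intro y
        rw [integral_const_mul, integral_add_left_eq_self (fun x => φ x) (y - a)]
      simp_rw [this]
      rw [integral_mul_const]
    · apply Continuous.integrable_of_hasCompactSupport
      · change Continuous (fun z : T1 × T1 => (1 - p z.2) * φ (z.2 - a + z.1))
        fun_prop
      · exact HasCompactSupport.of_compactSpace _
  rw [integral_sub, e1, e2]
  · simp only [mul_one]; ring
  · apply Continuous.integrable_of_hasCompactSupport _ (HasCompactSupport.of_compactSpace _)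
    have := continuous_parametric_integral_of_continuous (μ := ν)
      (f := fun t y : T1 => p y * φ (y + t))
      (by
        change Continuous (fun z : T1 × T1 => p z.2 * φ (z.2 + z.1))
        fun_prop) isCompact_univ
    simpa only [Measure.restrict_univ] using this
  · apply Continuous.integrable_of_hasCompactSupport _ (HasCompactSupport.of_compactSpace _)
    have := continuous_parametric_integral_of_continuous (μ := ν)
      (f := fun t y : T1 => (1 - p y) * φ (y - a + t))
      (by
        change Continuous (fun z : T1 × T1 => (1 - p z.2) * φ (z.2 - a + z.1))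
        fun_prop) isCompact_univ
    simpa only [Measure.restrict_univ] using this

/-- The key inequality that forces the flux to vanish. -/
lemma flux_zero {u v : T1 → ℝ} (hu : Continuous u) (hv : Continuous v) (hu0 : ∀ y, 0 < u y)
    (hv0 : ∀ y, 0 < v y) (hv1 : ∀ y, v y ≤ 1) (a : T1) {ν : Measure T1} [IsProbabilityMeasure ν]
    {b : ℝ} (hb : 0 ≤ b)
    (h : ∀ φ : T1 → ℝ, Continuous φ →
      ∫ y, v y * φ (y - a) ∂ν = ∫ y, u y * φ y ∂ν + b * ∫ x : T1, φ x)
    (hsym : ∫ x : T1, Real.log (u x) = ∫ x : T1, Real.log (v x)) : b = 0 := by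
  have hva : ∀ y, v y ≠ 0 := fun y => (hv0 y).ne'
  have hua : ∀ y, u y ≠ 0 := fun y => (hu0 y).ne'
  have key : ∀ n : ℕ, ∀ g : T1 → ℝ, Continuous g →
      b * n * Real.exp (∫ x : T1, g x) ≤ ∫ y, Real.exp (g (y - n • a)) ∂ν := by
    intro n
    induction n with
    | zero =>
      intro g hg
      simp only [Nat.cast_zero, mul_zero, zero_mul]
      exact integral_nonneg (fun y => (Real.exp_pos _).le)
    | succ n ih =>
      intro g hg
      have hstep := h (fun y => Real.exp (g (y - n • a)) / v (y + a)) (by
        apply Continuous.div _ _ (fun y => hva _) <;> fun_prop)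
      have e1 : ∫ y, Real.exp (g (y - (n + 1) • a)) ∂ν =
          ∫ y, v y * (Real.exp (g (y - a - n • a)) / v (y - a + a)) ∂ν := by
        congr 1
        ext y
        rw [sub_add_cancel, mul_div_assoc', mul_comm, mul_div_assoc, div_self (hva y), mul_one,
          add_smul, one_smul]
        congr 2
        abel
      rw [e1, hstep]
      set f : T1 → ℝ := fun y => Real.log (u y) - Real.log (v (y + a)) with hf
      have hfc : Continuous f := by
        apply Continuous.sub
        · exact hu.log (fun y => hua y)
        · exact (hv.comp (continuous_add_const a)).log (fun y => hva _)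
      have hvl : Continuous (fun y => Real.log (v (y + a))) :=
        (hv.comp (continuous_add_const a)).log (fun y => hva _)
      have hf0 : ∫ x : T1, f x = 0 := by
        simp only [hf]
        rw [integral_sub (integrable_cont _ (hu.log hua)) (integrable_cont _ hvl),
          integral_add_right_eq_self (fun x => Real.log (v x)) a, hsym, sub_self]
      have hfexp : ∀ y, Real.exp (f y) = u y / v (y + a) := by
        intro y
        simp only [hf]
        rw [Real.exp_sub, Real.exp_log (hu0 y), Real.exp_log (hv0 _)]
      have i1 : b * n * Real.exp (∫ x : T1, g x) ≤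
          ∫ y, u y * (Real.exp (g (y - n • a)) / v (y + a)) ∂ν := by
        have := ih (fun y => g y + f (y + n • a)) (by fun_prop)
        have hfn : Continuous (fun y => f (y + n • a)) := by fun_prop
        rw [integral_add (integrable_cont _ hg) (integrable_cont _ hfn),
          integral_add_right_eq_self (fun x => f x) (n • a), hf0, add_zero] at this
        refine this.trans (le_of_eq ?_)
        congr 1
        ext y
        rw [sub_add_cancel, Real.exp_add, hfexp]
        ring
      have i2 : Real.exp (∫ x : T1, g x) ≤
          ∫ x : T1, Real.exp (g (x - n • a)) / v (x + a) := by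
        have j1 := jensen_exp (g := fun x => g (x - n • a)) (by fun_prop)
        rw [integral_sub_right_eq_self (fun x => g x) (n • a)] at j1
        refine j1.trans ?_
        apply integral_mono
        · exact integrable_cont _ (by fun_prop)
        · apply integrable_cont
          apply Continuous.div _ _ (fun y => hva _) <;> fun_prop
        · intro x
          change Real.exp (g (x - n • a)) ≤ Real.exp (g (x - n • a)) / v (x + a)
          rw [le_div_iff₀ (hv0 _)]
          have := Real.exp_pos (g (x - n • a))
          nlinarith [hv1 (x + a)]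
      have i3 := mul_le_mul_of_nonneg_left i2 hb
      push_cast
      calc b * (n + 1) * Real.exp (∫ x : T1, g x)
          = b * n * Real.exp (∫ x : T1, g x) + b * Real.exp (∫ x : T1, g x) := by ring
        _ ≤ _ := add_le_add i1 i3
  by_contra hne
  have hbpos : 0 < b := lt_of_le_of_ne hb (Ne.symm hne)
  obtain ⟨n, hn⟩ := exists_nat_gt (1 / b)
  have := key n (fun _ => 0) continuous_const
  simp at this
  rw [div_lt_iff₀ hbpos] at hn
  nlinarith

/-- In the symmetric case every stationary measure has zero flux. -/
theorem zero_flux {α : ℝ} (hα : Irrational α) {p : T1 → ℝ} (hp : Continuous p)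
    (h0 : ∀ y, 0 < p y) (h1 : ∀ y, p y < 1)
    (hsym : ∫ x : T1, Real.log (p x) = ∫ x : T1, Real.log (1 - p x)) {ν : Measure T1}
    [IsProbabilityMeasure ν] (h : Stationary p (α : T1) ν) {φ : T1 → ℝ} (hφ : Continuous φ) :
    ∫ y, (1 - p y) * φ (y - α) ∂ν = ∫ y, p y * φ y ∂ν := by
  set c := J p α ν (fun _ => 1) with hc
  have hJ : ∀ φ : T1 → ℝ, Continuous φ → ∫ y, p y * φ y ∂ν - ∫ y, (1 - p y) * φ (y - α) ∂ν =
      c * ∫ x : T1, φ x := fun φ hφ => J_eq hα hp h hφ
  have hc0 : c = 0 := by
    rcases le_total c 0 with hle | hle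
    · have := flux_zero (u := p) (v := fun y => 1 - p y) hp (by fun_prop) h0
        (fun y => by linarith [h1 y]) (fun y => by linarith [h0 y]) (α : T1) (ν := ν)
        (b := -c) (by linarith) (by
          intro φ hφ
          have := hJ φ hφ
          linarith) hsym
      linarith
    · have := flux_zero (u := fun y => 1 - p y) (v := p) (by fun_prop) hp
        (fun y => by linarith [h1 y]) h0 (fun y => (h1 y).le) (-(α : T1)) (ν := ν)
        (b := c) hle (by
          intro φ hφ
          have h2 := hJ (fun y => φ (y + α)) (by fun_prop)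
          rw [integral_add_right_eq_self (fun x => φ x) (α : T1)] at h2
          simp only [sub_add_cancel] at h2
          simp only [sub_neg_eq_add]
          linarith) hsym.symm
      exact this
  have := hJ φ hφ
  rw [hc0, zero_mul] at this
  linarith

/-- The cocycle. -/
noncomputable def coc (p : T1 → ℝ) (a : T1) (y : T1) : ℝ :=
  Real.log (p y) - Real.log (1 - p (y + a))

lemma coc_cont {p : T1 → ℝ} (hp : Continuous p) (h0 : ∀ y, 0 < p y) (h1 : ∀ y, p y < 1)
    (a : T1) : Continuous (coc p a) := by
  unfold coc
  apply Continuous.sub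
  · exact hp.log (fun y => (h0 y).ne')
  · apply Continuous.log (by fun_prop)
    intro y
    linarith [h1 (y + a)]

lemma exp_coc {p : T1 → ℝ} (h0 : ∀ y, 0 < p y) (h1 : ∀ y, p y < 1)
    (a : T1) (y : T1) : Real.exp (coc p a y) = p y / (1 - p (y + a)) := by
  unfold coc
  rw [Real.exp_sub, Real.exp_log (h0 y), Real.exp_log (by linarith [h1 (y + a)])]

/-- Stationary measures of a symmetric environment are conformal. -/
theorem conf_of_stationary {α : ℝ} (hα : Irrational α) {p : T1 → ℝ} (hp : Continuous p)
    (h0 : ∀ y, 0 < p y) (h1 : ∀ y, p y < 1)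
    (hsym : ∫ x : T1, Real.log (p x) = ∫ x : T1, Real.log (1 - p x)) {ν : Measure T1}
    [IsProbabilityMeasure ν] (h : Stationary p (α : T1) ν) :
    IsConf (α : T1) (coc p α) ν := by
  unfold IsConf
  have hcc := coc_cont hp h0 h1 (α : T1)
  have hfin : IsFiniteMeasure (ν.withDensity
      (fun x => ENNReal.ofReal (Real.exp (coc p α x)))) := by
    apply isFiniteMeasure_withDensity_ofReal
    exact (integrable_cont ν (Real.continuous_exp.comp hcc)).2
  have hfin2 : IsFiniteMeasure (ν.map (fun x => x - (α : T1))) := by
    apply Measure.isFiniteMeasure_map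
  apply ext_of_forall_integral_eq_of_IsFiniteMeasure
  intro g
  have hg : Continuous g := g.continuous
  rw [integral_map (meas_sub _).aemeasurable hg.aestronglyMeasurable]
  rw [integral_withDensity_eq_integral_toReal_smul (measurable_expf hcc)
    (Eventually.of_forall (fun _ => ENNReal.ofReal_lt_top))]
  have h2 := zero_flux hα hp h0 h1 hsym h (φ := fun y => g y / (1 - p (y + α))) (by
    apply Continuous.div hg (by fun_prop)
    intro y
    linarith [h1 (y + α)])
  have e1 : ∀ y, (1 - p y) * (g (y - α) / (1 - p (y - α + α))) = g (y - α) := by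
    intro y
    rw [sub_add_cancel]
    have : 1 - p y ≠ 0 := by linarith [h1 y]
    field_simp
  simp_rw [e1] at h2
  rw [h2]
  congr 1
  ext y
  rw [ENNReal.toReal_ofReal (Real.exp_pos _).le, exp_coc h0 h1, smul_eq_mul]
  ring

end Pool.Agent.N360.QP
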