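import Pool.Agent.N360.QP.Exist

open MeasureTheory Filter Topology ProbabilityTheory
open scoped ENNReal NNReal

namespace Pool.Agent.N360.QP

/-- bounded measurable function -/
structure BM (u : T1 → ℝ) : Prop where
  meas : Measurable u
  bdd : ∃ C, ∀ x, |u x| ≤ C

lemma BM.integrable {u : T1 → ℝ} (h : BM u) (μ : Measure T1) [IsFiniteMeasure μ] :
    Integrable u μ := by
  obtain ⟨C, hC⟩ := h.bdd
  exact Integrable.of_bound h.meas.aestronglyMeasurable C
    (Eventually.of_forall (fun x => by rw [Real.norm_eq_abs]; exact hC x))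

lemma BM.mul {u v : T1 → ℝ} (hu : BM u) (hv : BM v) : BM (fun x => u x * v x) := by
  obtain ⟨C, hC⟩ := hu.bdd
  obtain ⟨D, hD⟩ := hv.bdd
  refine ⟨hu.meas.mul hv.meas, C * D, fun x => ?_⟩
  rw [abs_mul]
  exact mul_le_mul (hC x) (hD x) (abs_nonneg _) ((abs_nonneg _).trans (hC x))

lemma BM.add {u v : T1 → ℝ} (hu : BM u) (hv : BM v) : BM (fun x => u x + v x) := by
  obtain ⟨C, hC⟩ := hu.bdd
  obtain ⟨D, hD⟩ := hv.bdd
  refine ⟨hu.meas.add hv.meas, C + D, fun x => ?_⟩
  exact (abs_add_le _ _).trans (add_le_add (hC x) (hD x))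

lemma BM.sub {u v : T1 → ℝ} (hu : BM u) (hv : BM v) : BM (fun x => u x - v x) := by
  obtain ⟨C, hC⟩ := hu.bdd
  obtain ⟨D, hD⟩ := hv.bdd
  refine ⟨hu.meas.sub hv.meas, C + D, fun x => ?_⟩
  exact (abs_sub _ _).trans (add_le_add (hC x) (hD x))

lemma BM.const (c : ℝ) : BM (fun _ => c) := ⟨measurable_const, |c|, fun _ => le_rfl⟩

lemma BM.shift {u : T1 → ℝ} (hu : BM u) (t : T1) : BM (fun x => u (x + t)) := by
  obtain ⟨C, hC⟩ := hu.bdd
  exact ⟨hu.meas.comp (measurable_add_const t), C, fun x => hC _⟩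

lemma BM.shift' {u : T1 → ℝ} (hu : BM u) (t : T1) : BM (fun x => u (x - t)) := by
  obtain ⟨C, hC⟩ := hu.bdd
  exact ⟨hu.meas.comp (meas_sub t), C, fun x => hC _⟩

lemma BM.sq {u : T1 → ℝ} (hu : BM u) : BM (fun x => u x ^ 2) := by
  have := hu.mul hu
  simpa [pow_two] using this

lemma Env.bmp (E : Env) : BM E.p :=
  ⟨E.cont.measurable, 1, fun x => by
    rw [abs_of_pos (E.pos x)]; exact (E.lt_one x).le⟩

lemma Env.bmq (E : Env) : BM (fun y => 1 - E.p y) := (BM.const 1).sub E.bmp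

lemma BM.P {E : Env} {a : T1} {u : T1 → ℝ} (hu : BM u) : BM (P E.p a u) := by
  unfold QP.P
  exact (E.bmp.mul (hu.shift a)).add (E.bmq.mul (hu.shift' a))

lemma BM.Pn {E : Env} {a : T1} {u : T1 → ℝ} (hu : BM u) (n : ℕ) : BM ((QP.P E.p a)^[n] u) := by
  induction n with
  | zero => exact hu
  | succ n ih => rw [Function.iterate_succ_apply']; exact ih.P

section
variable {E : Env} {a : T1} {ν : Measure T1} [IsProbabilityMeasure ν]

omit [IsProbabilityMeasure ν] in
/-- reversibility identity -/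
lemma star (h : IsConf a (coc E.p a) ν) {u v : T1 → ℝ} (hu : BM u) (hv : BM v) :
    ∫ y, (1 - E.p y) * (u (y - a) * v y) ∂ν = ∫ y, E.p y * (u y * v (y + a)) ∂ν := by
  have hcc := coc_cont E.cont E.pos E.lt_one a
  set g : T1 → ℝ := fun x => (1 - E.p (x + a)) * (u x * v (x + a)) with hg
  have hgm : Measurable g := by
    apply Measurable.mul
    · exact measurable_const.sub (E.cont.measurable.comp (measurable_add_const a))
    · exact hu.meas.mul (hv.meas.comp (measurable_add_const a))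
  have h1 : ∫ x, g x ∂(ν.map (fun x => x - a)) = ∫ x, g (x - a) ∂ν :=
    integral_map (meas_sub a).aemeasurable hgm.aestronglyMeasurable
  rw [h, integral_withDensity_eq_integral_toReal_smul (measurable_expf hcc)
    (Eventually.of_forall (fun _ => ENNReal.ofReal_lt_top))] at h1
  have e1 : ∀ y, g (y - a) = (1 - E.p y) * (u (y - a) * v y) := by
    intro y; simp only [hg, sub_add_cancel]
  have e2 : ∀ y, (ENNReal.ofReal (Real.exp (coc E.p a y))).toReal • g y =
      E.p y * (u y * v (y + a)) := by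
    intro y
    rw [ENNReal.toReal_ofReal (Real.exp_pos _).le, exp_coc E.pos E.lt_one, smul_eq_mul]
    simp only [hg]
    have : 1 - E.p (y + a) ≠ 0 := by linarith [E.lt_one (y + a)]
    field_simp
  simp_rw [e1, e2] at h1
  exact h1.symm

lemma P_sym (h : IsConf a (coc E.p a) ν) {u v : T1 → ℝ} (hu : BM u) (hv : BM v) :
    ∫ y, P E.p a u y * v y ∂ν = ∫ y, u y * P E.p a v y ∂ν := by
  have s1 := star h hu hv
  have s2 := star h hv hu
  have e1 : ∀ y, P E.p a u y * v y =
      E.p y * (v y * u (y + a)) + (1 - E.p y) * (u (y - a) * v y) := by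
    intro y; unfold P; ring
  have e2 : ∀ y, u y * P E.p a v y =
      E.p y * (u y * v (y + a)) + (1 - E.p y) * (v (y - a) * u y) := by
    intro y; unfold P; ring
  simp_rw [e1, e2]
  rw [integral_add ((E.bmp.mul (hv.mul (hu.shift a))).integrable ν)
      ((E.bmq.mul ((hu.shift' a).mul hv)).integrable ν),
    integral_add ((E.bmp.mul (hu.mul (hv.shift a))).integrable ν)
      ((E.bmq.mul ((hv.shift' a).mul hu)).integrable ν), s1, s2]
  ring

lemma P_one : P E.p a (fun _ => 1) = fun _ => 1 := by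
  ext y; unfold P; ring

lemma P_stat (h : IsConf a (coc E.p a) ν) {u : T1 → ℝ} (hu : BM u) :
    ∫ y, P E.p a u y ∂ν = ∫ y, u y ∂ν := by
  have := P_sym h hu (BM.const 1)
  rw [P_one] at this
  simpa using this

lemma Pn_stat (h : IsConf a (coc E.p a) ν) {u : T1 → ℝ} (hu : BM u) (n : ℕ) :
    ∫ y, (P E.p a)^[n] u y ∂ν = ∫ y, u y ∂ν := by
  induction n with
  | zero => rfl
  | succ n ih => rw [Function.iterate_succ_apply', P_stat h (hu.Pn n), ih]

lemma pair (h : IsConf a (coc E.p a) ν) {u : T1 → ℝ} (hu : BM u) (m n : ℕ) :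
    ∫ y, (P E.p a)^[m] u y * (P E.p a)^[n] u y ∂ν = ∫ y, u y * (P E.p a)^[m + n] u y ∂ν := by
  induction m generalizing n with
  | zero => simp
  | succ m ih =>
    rw [Function.iterate_succ_apply', P_sym h (hu.Pn m) (hu.Pn n),
      ← Function.iterate_succ_apply' (P E.p a), ih (n + 1),
      show m + (n + 1) = m + 1 + n by ring]

/-- variance identity -/
lemma var_id (h : IsConf a (coc E.p a) ν) {u : T1 → ℝ} (hu : BM u) :
    ∫ y, u y ^ 2 ∂ν - ∫ y, (P E.p a u y) ^ 2 ∂ν =
      ∫ y, E.p y * (1 - E.p y) * (u (y + a) - u (y - a)) ^ 2 ∂ν := by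
  rw [← P_stat h hu.sq, ← integral_sub (hu.sq.P.integrable ν) (hu.P.sq.integrable ν)]
  congr 1
  ext y
  unfold P
  ring

end

end Pool.Agent.N360.QP
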