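import Pool.Agent.N360.QP.Mix1

open MeasureTheory Filter Topology ProbabilityTheory
open scoped ENNReal NNReal

namespace Pool.Agent.N360.QP

lemma BM.memLp {u : T1 → ℝ} (h : BM u) (μ : Measure T1) [IsFiniteMeasure μ] :
    MemLp u 2 μ := by
  obtain ⟨C, hC⟩ := h.bdd
  exact MemLp.of_bound h.meas.aestronglyMeasurable C
    (Eventually.of_forall (fun x => by rw [Real.norm_eq_abs]; exact hC x))

lemma normsq_toLp {μ : Measure T1} {f : T1 → ℝ} (hf : MemLp f 2 μ) :
    ‖hf.toLp f‖ ^ 2 = ∫ x, f x ^ 2 ∂μ := by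
  rw [← real_inner_self_eq_norm_sq, L2.inner_def]
  apply integral_congr_ae
  filter_upwards [hf.coeFn_toLp] with x hx
  rw [hx]
  simp [pow_two]

lemma L2_complete (ν : Measure T1) [IsFiniteMeasure ν] (w : ℕ → T1 → ℝ) (hw : ∀ n, BM (w n))
    (hc : ∀ ε > 0, ∃ N, ∀ m ≥ N, ∀ n ≥ N, ∫ x, (w m x - w n x) ^ 2 ∂ν < ε) :
    ∃ h : T1 → ℝ, Measurable h ∧ MemLp h 2 ν ∧
      Tendsto (fun n => ∫ x, (w n x - h x) ^ 2 ∂ν) atTop (𝓝 0) := by
  set F : ℕ → Lp ℝ 2 ν := fun n => ((hw n).memLp ν).toLp (w n) with hF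
  have hd : ∀ m n, dist (F m) (F n) ^ 2 = ∫ x, (w m x - w n x) ^ 2 ∂ν := by
    intro m n
    rw [dist_eq_norm, hF]
    simp only
    rw [← MemLp.toLp_sub, normsq_toLp]
    rfl
  have hcau : CauchySeq F := by
    rw [Metric.cauchySeq_iff]
    intro ε hε
    obtain ⟨N, hN⟩ := hc (ε ^ 2) (by positivity)
    refine ⟨N, fun m hm n hn => ?_⟩
    have := hN m hm n hn
    rw [← hd] at this
    exact lt_of_pow_lt_pow_left₀ 2 hε.le this
  obtain ⟨G, hG⟩ := cauchySeq_tendsto_of_complete hcau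
  refine ⟨G, (Lp.stronglyMeasurable G).measurable, Lp.memLp G, ?_⟩
  have h1 : Tendsto (fun n => dist (F n) G ^ 2) atTop (𝓝 (0 ^ 2)) :=
    (tendsto_iff_dist_tendsto_zero.mp hG).pow 2
  rw [zero_pow (by norm_num)] at h1
  refine h1.congr (fun n => ?_)
  rw [dist_eq_norm]
  have e : F n - G = (((hw n).memLp ν).sub (Lp.memLp G)).toLp (w n - (G : T1 → ℝ)) := by
    rw [MemLp.toLp_sub ((hw n).memLp ν) (Lp.memLp G), Lp.toLp_coeFn]
  rw [e, normsq_toLp]
  rfl

section
variable {E : Env} {α : ℝ} {ν : Measure T1} [IsProbabilityMeasure ν]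

lemma coc_bdd (E : Env) (a : T1) : ∃ B, ∀ y, |coc E.p a y| ≤ B := by
  have hcc := coc_cont E.cont E.pos E.lt_one a
  obtain ⟨B, hB⟩ := (isCompact_range hcc).isBounded.exists_norm_le
  exact ⟨B, fun x => hB _ ⟨x, rfl⟩⟩

omit [IsProbabilityMeasure ν] in
/-- translation by `±a` distorts integrals of nonnegative functions by a bounded factor -/
lemma shift_le {a : T1} (h : IsConf a (coc E.p a) ν) : ∃ C : ℝ≥0∞, C ≠ ⊤ ∧
    ∀ G : T1 → ℝ≥0∞, Measurable G →
      ∫⁻ x, G (x + a) ∂ν ≤ C * ∫⁻ x, G x ∂ν ∧ ∫⁻ x, G (x - a) ∂ν ≤ C * ∫⁻ x, G x ∂ν := by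
  obtain ⟨B, hB⟩ := coc_bdd E a
  have hcc := coc_cont E.cont E.pos E.lt_one a
  refine ⟨ENNReal.ofReal (Real.exp B), ENNReal.ofReal_ne_top, fun G hG => ⟨?_, ?_⟩⟩
  · have h1 := h.lint hcc (g := fun x => G (x + a)) (hG.comp (measurable_add_const a))
    simp only [sub_add_cancel] at h1
    have hm2 : Measurable (fun x => G (x + a) * ENNReal.ofReal (Real.exp (coc E.p a x))) :=
      (hG.comp (measurable_add_const a)).mul (measurable_expf hcc)
    rw [h1, ← lintegral_const_mul _ hm2]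
    apply lintegral_mono
    intro x
    change G (x + a) ≤ ENNReal.ofReal (Real.exp B) * (G (x + a) * ENNReal.ofReal (Real.exp (coc E.p a x)))
    have : 1 ≤ ENNReal.ofReal (Real.exp B) * ENNReal.ofReal (Real.exp (coc E.p a x)) := by
      rw [← ENNReal.ofReal_mul (Real.exp_pos _).le, ← Real.exp_add, ← ENNReal.ofReal_one]
      apply ENNReal.ofReal_le_ofReal
      exact Real.one_le_exp (by linarith [(abs_le.mp (hB x)).1])
    calc G (x + a) = 1 * G (x + a) := by rw [one_mul]
      _ ≤ (ENNReal.ofReal (Real.exp B) * ENNReal.ofReal (Real.exp (coc E.p a x))) * G (x + a) := by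
          gcongr
      _ = _ := by ring
  · rw [h.lint hcc hG, ← lintegral_const_mul _ hG]
    apply lintegral_mono
    intro x
    change G x * ENNReal.ofReal (Real.exp (coc E.p a x)) ≤ ENNReal.ofReal (Real.exp B) * G x
    rw [mul_comm]
    gcongr
    exact (abs_le.mp (hB x)).2

lemma lip_log {p : T1 → ℝ} {m : ℝ} (hm : 0 < m) (hmp : ∀ y, m ≤ p y) {L : ℝ≥0}
    (hL : LipschitzWith L p) : LipschitzWith (L * (Real.toNNReal m⁻¹)) (fun y => Real.log (p y)) := by
  apply LipschitzWith.of_dist_le_mul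
  have key : ∀ x y, Real.log (p x) - Real.log (p y) ≤ m⁻¹ * |p x - p y| := by
    intro x y
    have hx : 0 < p x := hm.trans_le (hmp x)
    have hy : 0 < p y := hm.trans_le (hmp y)
    rw [← Real.log_div hx.ne' hy.ne']
    have h1 := Real.log_le_sub_one_of_pos (div_pos hx hy)
    have h2 : p x / p y - 1 = (p x - p y) / p y := by field_simp
    rw [h2] at h1
    refine h1.trans ?_
    rw [inv_mul_eq_div]
    calc (p x - p y) / p y ≤ |p x - p y| / p y := by
          gcongr; exact le_abs_self _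
      _ ≤ |p x - p y| / m := by
          gcongr; exact hmp y
  intro x y
  have h1 : |Real.log (p x) - Real.log (p y)| ≤ m⁻¹ * |p x - p y| := by
    rw [abs_le]
    constructor
    · have := key y x
      rw [abs_sub_comm] at this
      linarith
    · exact key x y
  rw [Real.dist_eq]
  refine h1.trans ?_
  have h2 := hL.dist_le_mul x y
  rw [Real.dist_eq] at h2
  push_cast
  rw [Real.coe_toNNReal _ (by positivity)]
  calc m⁻¹ * |p x - p y| ≤ m⁻¹ * (L * dist x y) := by gcongr
    _ = L * m⁻¹ * dist x y := by ring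

lemma exists_lower {p : T1 → ℝ} (hp : Continuous p) (h0 : ∀ y, 0 < p y) :
    ∃ m, 0 < m ∧ ∀ y, m ≤ p y := by
  obtain ⟨x, -, hx⟩ := isCompact_univ.exists_isMinOn Set.univ_nonempty hp.continuousOn
  exact ⟨p x, h0 x, fun y => hx (Set.mem_univ y)⟩

lemma coc_lip (E : Env) (a : T1) {L : ℝ≥0} (hL : LipschitzWith L E.p) :
    ∃ L', LipschitzWith L' (coc E.p a) := by
  obtain ⟨m, hm, hmp⟩ := exists_lower E.cont E.pos
  obtain ⟨m', hm', hmp'⟩ := exists_lower (p := fun y => 1 - E.p y) (by have := E.cont; fun_prop)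
    (fun y => by linarith [E.lt_one y])
  have h1 := lip_log hm hmp hL
  have hq : LipschitzWith L (fun y => 1 - E.p y) := by
    apply LipschitzWith.of_dist_le_mul
    intro x y
    have := hL.dist_le_mul x y
    rw [Real.dist_eq] at this ⊢
    rw [abs_sub_comm] at this
    have e : 1 - E.p x - (1 - E.p y) = E.p y - E.p x := by ring
    rw [e]; exact this
  have h2 := lip_log hm' hmp' hq
  have h3 : LipschitzWith 1 (fun y : T1 => y + a) := by
    apply LipschitzWith.of_dist_le_mul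
    intro x y
    rw [dist_add_right]; simp
  exact ⟨_, h1.sub (h2.comp h3)⟩

lemma S_lip {f : T1 → ℝ} {L : ℝ≥0} (hf : LipschitzWith L f) (a : T1) :
    LipschitzWith (L + L) (S f a 2) := by
  have e : S f a 2 = fun x => f x + f (x + a) := by
    ext x
    simp [S, Finset.sum_range_succ]
  rw [e]
  have h3 : LipschitzWith 1 (fun y : T1 => y + a) := by
    apply LipschitzWith.of_dist_le_mul
    intro x y
    rw [dist_add_right]; simp
  have := hf.comp h3
  rw [mul_one] at this
  exact hf.add this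

/-- ergodicity of `x ↦ x + 2a` -/
lemma quasiErgodic_two (hα : Irrational α) (h : IsConf (α : T1) (coc E.p α) ν)
    {L : ℝ≥0} (hL : LipschitzWith L E.p) :
    QuasiErgodic (fun x : T1 => x + (2:ℕ) • (α : T1)) ν := by
  have hcc := coc_cont E.cont E.pos E.lt_one (α : T1)
  obtain ⟨L', hL'⟩ := coc_lip E (α : T1) hL
  have h2 := h.two hcc
  have hL2 := S_lip hL' (α : T1)
  have hα2 : Irrational (2 * α) := by
    have := hα.natCast_mul (m := 2) (by norm_num)
    exact_mod_cast this
  have e2 : ((2:ℕ) • (α : T1)) = ((2 * α : ℝ) : T1) := by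
    rw [← AddCircle.coe_nsmul]; congr 1; simp
  refine ⟨⟨measurable_add_const _, ?_⟩, ⟨?_⟩⟩
  · -- absolute continuity
    obtain ⟨C, hC, hG⟩ := shift_le h
    refine Measure.AbsolutelyContinuous.mk (fun s hs hs0 => ?_)
    rw [Measure.map_apply (measurable_add_const _) hs]
    have m1 : Measurable (s.indicator (fun _ => (1:ℝ≥0∞))) := measurable_const.indicator hs
    have z0 : ∫⁻ x, s.indicator (fun _ => (1:ℝ≥0∞)) x ∂ν = 0 := by
      rw [lintegral_indicator hs]; simp [hs0]
    have z1 : ∫⁻ x, s.indicator (fun _ => (1:ℝ≥0∞)) (x + α) ∂ν = 0 := by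
      have := (hG _ m1).1
      rw [z0, mul_zero] at this
      exact le_antisymm this zero_le
    have m2 : Measurable (fun x => s.indicator (fun _ => (1:ℝ≥0∞)) (x + (α:T1))) :=
      m1.comp (measurable_add_const _)
    have z2 : ∫⁻ x, s.indicator (fun _ => (1:ℝ≥0∞)) (x + α + α) ∂ν = 0 := by
      have := (hG _ m2).1
      rw [z1, mul_zero] at this
      exact le_antisymm this zero_le
    have e3 : (fun x : T1 => s.indicator (fun _ => (1:ℝ≥0∞)) (x + α + α)) =
        ((fun x : T1 => x + (2:ℕ) • (α : T1)) ⁻¹' s).indicator (fun _ => (1:ℝ≥0∞)) := by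
      ext x
      have : x + (α:T1) + α = x + (2:ℕ) • (α : T1) := by rw [two_nsmul, add_assoc]
      rw [this]
      rfl
    rw [e3, lintegral_indicator ((measurable_add_const _) hs)] at z2
    simpa using z2
  · intro s hs hinv
    rw [e2] at hinv h2
    have := conf_ergodic hα2 hL2 h2 hs hinv
    rw [Filter.eventuallyConst_set]
    rcases this with h0 | h0
    · right
      exact measure_eq_zero_iff_ae_notMem.mp h0
    · left
      have := measure_eq_zero_iff_ae_notMem.mp h0
      filter_upwards [this] with x hx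
      simpa using hx

end

end Pool.Agent.N360.QP
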