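import Pool.Agent.N360.QP.Mix2

open MeasureTheory Filter Topology ProbabilityTheory
open scoped ENNReal NNReal

namespace Pool.Agent.N360.QP

section
variable {E : Env} {α : ℝ} {ν : Measure T1} [IsProbabilityMeasure ν]

lemma lint_sq {ν : Measure T1} [IsFiniteMeasure ν] {w : T1 → ℝ} (hw : MemLp w 2 ν) :
    ∫⁻ x, ENNReal.ofReal (w x ^ 2) ∂ν = ENNReal.ofReal (∫ x, w x ^ 2 ∂ν) := by
  rw [ofReal_integral_eq_lintegral_ofReal hw.integrable_sq
    (Eventually.of_forall (fun x => sq_nonneg _))]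

lemma sq3 (x y z : ℝ) : ENNReal.ofReal ((x + y + z) ^ 2) ≤
    3 * (ENNReal.ofReal (x ^ 2) + ENNReal.ofReal (y ^ 2) + ENNReal.ofReal (z ^ 2)) := by
  rw [← ENNReal.ofReal_add (sq_nonneg _) (sq_nonneg _),
    ← ENNReal.ofReal_add (add_nonneg (sq_nonneg _) (sq_nonneg _)) (sq_nonneg _)]
  have : (3:ℝ≥0∞) = ENNReal.ofReal 3 := by norm_num
  rw [this, ← ENNReal.ofReal_mul (by norm_num)]
  apply ENNReal.ofReal_le_ofReal
  nlinarith [sq_nonneg (x - y), sq_nonneg (x - z), sq_nonneg (y - z)]

/-- `L²` convergence of the iterates of the transition operator. -/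
theorem L2_conv (hα : Irrational α) (h : IsConf (α : T1) (coc E.p α) ν)
    {L : ℝ≥0} (hL : LipschitzWith L E.p) {u : T1 → ℝ} (hu : BM u) :
    Tendsto (fun n => ∫ x, ((P E.p α)^[n] u x - ∫ y, u y ∂ν) ^ 2 ∂ν) atTop (𝓝 0) := by
  set c := ∫ y, u y ∂ν with hc
  set w : ℕ → T1 → ℝ := fun n => (P E.p α)^[n] u with hw
  have hBM : ∀ n, BM (w n) := fun n => hu.Pn n
  set b : ℕ → ℝ := fun j => ∫ y, u y * w j y ∂ν with hb
  have hpair : ∀ m n, ∫ y, w m y * w n y ∂ν = b (m + n) := fun m n => pair h hu m n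
  set a : ℕ → ℝ := fun n => ∫ y, w n y ^ 2 ∂ν with ha
  have hab : ∀ n, a n = b (2 * n) := by
    intro n
    rw [two_mul, ← hpair]
    simp only [ha, pow_two]
  have hvar : ∀ n, a n - a (n + 1) =
      ∫ y, E.p y * (1 - E.p y) * (w n (y + α) - w n (y - α)) ^ 2 ∂ν := by
    intro n
    have := var_id h (hBM n)
    simp only [ha, hw] at this ⊢
    rw [Function.iterate_succ_apply']
    exact this
  have hanti : Antitone a := by
    apply antitone_nat_of_succ_le
    intro n
    have h1 := hvar n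
    have h2 : 0 ≤ ∫ y, E.p y * (1 - E.p y) * (w n (y + α) - w n (y - α)) ^ 2 ∂ν := by
      apply integral_nonneg
      intro y
      have := E.pos y
      have := E.lt_one y
      have : 0 ≤ 1 - E.p y := by linarith
      positivity
    linarith
  have ha0 : ∀ n, 0 ≤ a n := fun n => integral_nonneg (fun y => sq_nonneg _)
  obtain ⟨l, hl⟩ : ∃ l, Tendsto a atTop (𝓝 l) :=
    ⟨_, tendsto_atTop_ciInf hanti ⟨0, by rintro _ ⟨n, rfl⟩; exact ha0 n⟩⟩
  have hlle : ∀ n, l ≤ a n := fun n => hanti.le_of_tendsto hl n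
  have hdiff : ∀ m n, ∫ x, (w (2 * m) x - w (2 * n) x) ^ 2 ∂ν =
      a (2 * m) + a (2 * n) - 2 * a (m + n) := by
    intro m n
    have e1 : ∀ x, (w (2 * m) x - w (2 * n) x) ^ 2 =
        w (2 * m) x ^ 2 + w (2 * n) x ^ 2 - 2 * (w (2 * m) x * w (2 * n) x) := by
      intro x; ring
    simp_rw [e1]
    rw [integral_sub (((hBM _).sq.add (hBM _).sq).integrable ν)
      ((BM.const 2).mul ((hBM _).mul (hBM _)) |>.integrable ν),
      integral_add ((hBM _).sq.integrable ν) ((hBM _).sq.integrable ν),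
      integral_const_mul, hpair, hab (m + n), show 2 * m + 2 * n = 2 * (m + n) by ring]
  obtain ⟨g, hgm, hg2, hgt⟩ := L2_complete ν (fun n => w (2 * n)) (fun n => hBM _) (by
    intro ε hε
    have h1 : ∀ᶠ n in atTop, a n < l + ε / 2 := hl.eventually_lt_const (by linarith)
    obtain ⟨N, hN⟩ := eventually_atTop.mp h1
    refine ⟨N, fun m hm n hn => ?_⟩
    rw [hdiff]
    have i1 := hN (2 * m) (by omega)
    have i2 := hN (2 * n) (by omega)
    have i3 := hlle (m + n)
    linarith)
  -- the differences `w n (y + α) - w n (y - α)` tend to zero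
  obtain ⟨m, hm, hmp⟩ := exists_lower E.cont E.pos
  obtain ⟨m', hm', hmp'⟩ := exists_lower (p := fun y => 1 - E.p y) (by have := E.cont; fun_prop)
    (fun y => by linarith [E.lt_one y])
  have hD : Tendsto (fun n => ∫ y, (w n (y + α) - w n (y - α)) ^ 2 ∂ν) atTop (𝓝 0) := by
    have h1 : Tendsto (fun n => (m * m')⁻¹ * (a n - a (n + 1))) atTop (𝓝 ((m * m')⁻¹ * (l - l))) :=
      (hl.sub (hl.comp (tendsto_add_atTop_nat 1))).const_mul _
    rw [sub_self, mul_zero] at h1
    refine squeeze_zero (fun n => integral_nonneg (fun y => sq_nonneg _)) (fun n => ?_) h1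
    rw [hvar, ← integral_const_mul]
    apply integral_mono
    · exact (((hBM n).shift _).sub ((hBM n).shift' _)).sq.integrable ν
    · exact ((BM.const _).mul ((E.bmp.mul E.bmq).mul
        (((hBM n).shift _).sub ((hBM n).shift' _)).sq)).integrable ν
    · intro y
      change (w n (y + α) - w n (y - α)) ^ 2 ≤
        (m * m')⁻¹ * (E.p y * (1 - E.p y) * (w n (y + α) - w n (y - α)) ^ 2)
      have hmm : 0 < m * m' := mul_pos hm hm'
      have i1 : m * m' ≤ E.p y * (1 - E.p y) :=
        mul_le_mul (hmp y) (hmp' y) hm'.le (E.pos y).le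
      rw [← mul_assoc]
      have i2 : 1 ≤ (m * m')⁻¹ * (E.p y * (1 - E.p y)) := by
        rw [inv_mul_eq_div, le_div_iff₀ hmm]; linarith
      nlinarith [sq_nonneg (w n (y + α) - w n (y - α))]
  -- hence the limit is invariant
  obtain ⟨C, hC, hshift⟩ := shift_le h
  have hinv0 : ∫⁻ y, ENNReal.ofReal ((g (y + α) - g (y - α)) ^ 2) ∂ν = 0 := by
    have hle : ∀ n, ∫⁻ y, ENNReal.ofReal ((g (y + α) - g (y - α)) ^ 2) ∂ν ≤
        3 * (C * ENNReal.ofReal (∫ x, (w (2 * n) x - g x) ^ 2 ∂ν) +
          ENNReal.ofReal (∫ y, (w (2 * n) (y + α) - w (2 * n) (y - α)) ^ 2 ∂ν) +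
          C * ENNReal.ofReal (∫ x, (w (2 * n) x - g x) ^ 2 ∂ν)) := by
      intro n
      have hdm : MemLp (fun x => w (2 * n) x - g x) 2 ν := ((hBM _).memLp ν).sub hg2
      have mG : Measurable (fun x => ENNReal.ofReal ((w (2 * n) x - g x) ^ 2)) :=
        (((hBM _).meas.sub hgm).pow_const 2).ennreal_ofReal
      have s := hshift _ mG
      rw [lint_sq hdm] at s
      have mw : Measurable (fun y => ENNReal.ofReal
          ((w (2 * n) (y + (α:T1)) - w (2 * n) (y - (α:T1))) ^ 2)) :=
        ((((hBM _).shift _).sub ((hBM _).shift' _)).sq.meas).ennreal_ofReal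
      have mG1 : Measurable (fun y => ENNReal.ofReal ((w (2 * n) (y + (α:T1)) - g (y + α)) ^ 2)) :=
        mG.comp (measurable_add_const _)
      calc ∫⁻ y, ENNReal.ofReal ((g (y + α) - g (y - α)) ^ 2) ∂ν
          ≤ ∫⁻ y, 3 * (ENNReal.ofReal ((w (2 * n) (y + (α:T1)) - g (y + α)) ^ 2) +
            ENNReal.ofReal ((w (2 * n) (y + (α:T1)) - w (2 * n) (y - (α:T1))) ^ 2) +
            ENNReal.ofReal ((w (2 * n) (y - (α:T1)) - g (y - α)) ^ 2)) ∂ν := by
            apply lintegral_mono
            intro y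
            have := sq3 (-(w (2 * n) (y + (α:T1)) - g (y + α)))
              (w (2 * n) (y + (α:T1)) - w (2 * n) (y - (α:T1)))
              (w (2 * n) (y - (α:T1)) - g (y - α))
            rw [neg_sq] at this
            have e : g (y + α) - g (y - α) = -(w (2 * n) (y + (α:T1)) - g (y + α)) +
                (w (2 * n) (y + (α:T1)) - w (2 * n) (y - (α:T1))) +
                (w (2 * n) (y - (α:T1)) - g (y - α)) := by ring
            change ENNReal.ofReal ((g (y + α) - g (y - α)) ^ 2) ≤ _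
            rw [e]
            exact this
        _ = 3 * (∫⁻ y, ENNReal.ofReal ((w (2 * n) (y + (α:T1)) - g (y + α)) ^ 2) ∂ν +
            ∫⁻ y, ENNReal.ofReal ((w (2 * n) (y + (α:T1)) - w (2 * n) (y - (α:T1))) ^ 2) ∂ν +
            ∫⁻ y, ENNReal.ofReal ((w (2 * n) (y - (α:T1)) - g (y - α)) ^ 2) ∂ν) := by
            have mS : Measurable (fun y =>
                ENNReal.ofReal ((w (2 * n) (y + (α:T1)) - g (y + α)) ^ 2) +
                ENNReal.ofReal ((w (2 * n) (y + (α:T1)) - w (2 * n) (y - (α:T1))) ^ 2)) :=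
              mG1.add mw
            rw [lintegral_const_mul' _ _ (by norm_num), lintegral_add_left mS,
              lintegral_add_left mG1]
        _ ≤ _ := by
            gcongr
            · exact s.1
            · rw [lint_sq ((((hBM _).shift _).sub ((hBM _).shift' _)).memLp ν)]
            · exact s.2
    have hlim : Tendsto (fun n => 3 * (C * ENNReal.ofReal (∫ x, (w (2 * n) x - g x) ^ 2 ∂ν) +
          ENNReal.ofReal (∫ y, (w (2 * n) (y + α) - w (2 * n) (y - α)) ^ 2 ∂ν) +
          C * ENNReal.ofReal (∫ x, (w (2 * n) x - g x) ^ 2 ∂ν))) atTop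
        (𝓝 (3 * (C * ENNReal.ofReal 0 + ENNReal.ofReal 0 + C * ENNReal.ofReal 0))) := by
      have t1 := ENNReal.tendsto_ofReal hgt
      have t2 := ENNReal.tendsto_ofReal
        (hD.comp (tendsto_id.const_mul_atTop' (by norm_num : 0 < 2)))
      have t3 := ENNReal.Tendsto.const_mul t1 (Or.inr hC)
      exact ENNReal.Tendsto.const_mul ((t3.add t2).add t3) (Or.inr (by norm_num))
    simp only [ENNReal.ofReal_zero, mul_zero, add_zero] at hlim
    exact le_antisymm (ge_of_tendsto' hlim hle) zero_le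
  have hQE := quasiErgodic_two hα h hL
  have hinv1 : ∀ᵐ y ∂ν, g (y + α) = g (y - α) := by
    rw [lintegral_eq_zero_iff] at hinv0
    · filter_upwards [hinv0] with y hy
      simp only [Pi.zero_apply, ENNReal.ofReal_eq_zero] at hy
      have : (g (y + α) - g (y - α)) ^ 2 = 0 := le_antisymm hy (sq_nonneg _)
      have := pow_eq_zero_iff (two_ne_zero) |>.mp this
      linarith
    · exact (((hgm.comp (measurable_add_const _)).sub (hgm.comp (meas_sub _))).pow_const 2).ennreal_ofReal
  have hinv2 : g ∘ (fun x : T1 => x + (2:ℕ) • (α : T1)) =ᵐ[ν] g := by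
    -- translate the almost everywhere identity by `α`
    set N : Set T1 := {y | g (y + α) ≠ g (y - α)} with hN
    have hNm : MeasurableSet N :=
      (measurableSet_eq_fun (hgm.comp (measurable_add_const _)) (hgm.comp (meas_sub _))).compl
    have hN0 : ν N = 0 := by
      rw [ae_iff] at hinv1
      exact hinv1
    have m1 : Measurable (N.indicator (fun _ => (1:ℝ≥0∞))) := measurable_const.indicator hNm
    have z0 : ∫⁻ x, N.indicator (fun _ => (1:ℝ≥0∞)) x ∂ν = 0 := by
      rw [lintegral_indicator hNm]; simp [hN0]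
    have z1 : ∫⁻ x, N.indicator (fun _ => (1:ℝ≥0∞)) (x + α) ∂ν = 0 := by
      have := (hshift _ m1).1
      rw [z0, mul_zero] at this
      exact le_antisymm this zero_le
    have m2 : Measurable (fun x => N.indicator (fun _ => (1:ℝ≥0∞)) (x + (α:T1))) :=
      m1.comp (measurable_add_const _)
    rw [lintegral_eq_zero_iff m2] at z1
    filter_upwards [z1] with x hx
    simp only [Pi.zero_apply, Set.indicator_apply_eq_zero, one_ne_zero, imp_false] at hx
    simp only [hN, Set.mem_ofPred_eq, ne_eq, not_not, add_sub_cancel_right] at hx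
    simp only [Function.comp_apply]
    rw [two_nsmul, ← add_assoc]
    exact hx
  obtain ⟨k, hk⟩ := hQE.ae_eq_const_of_ae_eq_comp_ae hgm.aestronglyMeasurable hinv2
  -- identify the constant
  have hsub : ∀ n, ∫ x, (w (2 * n) x - g x) ^ 2 ∂ν = ∫ x, (w (2 * n) x - k) ^ 2 ∂ν := by
    intro n
    apply integral_congr_ae
    filter_upwards [hk] with x hx
    rw [hx]
    rfl
  have hwc : ∀ n, ∫ x, w n x ∂ν = c := fun n => Pn_stat h hu n
  have hexp : ∀ n (s : ℝ), ∫ x, (w n x - s) ^ 2 ∂ν = a n - 2 * s * c + s ^ 2 := by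
    intro n s
    have e1 : ∀ x, (w n x - s) ^ 2 = w n x ^ 2 - (2 * s) * w n x + s ^ 2 := by intro x; ring
    simp_rw [e1]
    rw [integral_add (((hBM n).sq.sub ((BM.const _).mul (hBM n))).integrable ν)
      (integrable_const _), integral_sub ((hBM n).sq.integrable ν)
      (((BM.const _).mul (hBM n)).integrable ν), integral_const_mul, hwc]
    simp
    rfl
  simp_rw [hsub, hexp] at hgt
  have hl2 : Tendsto (fun n => a (2 * n)) atTop (𝓝 l) :=
    hl.comp (tendsto_id.const_mul_atTop' (by norm_num : 0 < 2))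
  have h5 : Tendsto (fun n => a (2 * n) - 2 * k * c + k ^ 2) atTop (𝓝 (l - 2 * k * c + k ^ 2)) :=
    (hl2.sub_const _).add_const _
  have h6 := tendsto_nhds_unique h5 hgt
  have h7 : c ^ 2 ≤ l := by
    apply ge_of_tendsto' hl
    intro n
    have := hexp n c
    have h8 : 0 ≤ ∫ x, (w n x - c) ^ 2 ∂ν := integral_nonneg (fun x => sq_nonneg _)
    nlinarith
  have h9 : l = c ^ 2 := by nlinarith [sq_nonneg (k - c)]
  have h10 : Tendsto (fun n => a n - 2 * c * c + c ^ 2) atTop (𝓝 (l - 2 * c * c + c ^ 2)) :=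
    (hl.sub_const _).add_const _
  have h11 : l - 2 * c * c + c ^ 2 = 0 := by rw [h9]; ring
  rw [h11] at h10
  refine h10.congr (fun n => ?_)
  rw [hexp n c]

end

end Pool.Agent.N360.QP
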