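import Pool.Agent.N360.QP.Mix3
import Pool.Agent.N360.QP.Abs

open MeasureTheory Filter Topology ProbabilityTheory
open scoped ENNReal NNReal

namespace Pool.Agent.N360.QP

/-- The kernel of the chain, seen as depending on the whole past. -/
noncomputable def chainKer (E : Env) (a : T1) (n : ℕ) :
    Kernel ((i : Finset.Iic n) → (fun _ : ℕ => T1) i) T1 :=
  (K E a).comap (fun h => h ⟨n, Finset.mem_Iic.mpr le_rfl⟩) (measurable_pi_apply _)

instance (E : Env) (a : T1) (n : ℕ) : IsMarkovKernel (chainKer E a n) := by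
  unfold chainKer; infer_instance

/-- Law of the chain on path space, with initial law `ν`. -/
noncomputable def law (E : Env) (a : T1) (ν : Measure T1) : Measure (ℕ → T1) :=
  Kernel.trajMeasure (X := fun _ => T1) ν (chainKer E a)

instance (E : Env) (a : T1) (ν : Measure T1) [IsProbabilityMeasure ν] :
    IsProbabilityMeasure (law E a ν) := by
  unfold law; infer_instance

lemma law_zero (E : Env) (a : T1) (ν : Measure T1) [IsProbabilityMeasure ν] :
    (law E a ν).map (fun x => x 0) = ν := by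
  have h1 : (law E a ν).map (Preorder.frestrictLe (π := fun _ : ℕ => T1) 0) =
      ν.map (MeasurableEquiv.piUnique (fun _ : Finset.Iic 0 => T1)).symm := by
    unfold law Kernel.trajMeasure
    rw [Measure.map_comp _ _ (by fun_prop), Kernel.traj_map_frestrictLe, Kernel.partialTraj_self,
      Measure.id_comp]
  have h2 : (law E a ν).map (fun x => x 0) =
      ((law E a ν).map (Preorder.frestrictLe (π := fun _ : ℕ => T1) 0)).map
        (fun y => y ⟨0, Finset.mem_Iic.mpr le_rfl⟩) := by
    rw [Measure.map_map (measurable_pi_apply _) (by fun_prop)]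
    rfl
  rw [h2, h1, Measure.map_map (measurable_pi_apply _) (by fun_prop)]
  have : ((fun y : (i : Finset.Iic 0) → T1 => y ⟨0, Finset.mem_Iic.mpr le_rfl⟩) ∘
      (MeasurableEquiv.piUnique (fun _ : Finset.Iic 0 => T1)).symm) = id := by
    ext x
    rfl
  rw [this, Measure.map_id]

/-- restriction to the coordinates `≤ n` -/
def res (n : ℕ) (x : ℕ → T1) : (_ : Finset.Iic n) → T1 := fun i => x i

lemma meas_res (n : ℕ) : Measurable (res n) :=
  measurable_pi_lambda _ (fun i => measurable_pi_apply _)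

/-- bounded measurable function of the coordinates `≤ n` -/
structure BMn (n : ℕ) (F : ((i : Finset.Iic n) → T1) → ℝ) : Prop where
  meas : Measurable F
  bdd : ∃ C, ∀ x, |F x| ≤ C

section
variable {E : Env} {a : T1} {ν : Measure T1} [IsProbabilityMeasure ν]

lemma K_meas_int {φ : T1 → ℝ} : (fun y => ∫ z, φ z ∂(K E a y)) = P E.p a φ := by
  ext y; exact integral_K E a y φ

/-- Markov property. -/
lemma markov (n : ℕ) {F : ((i : Finset.Iic n) → T1) → ℝ} (hF : BMn n F) {φ : T1 → ℝ} (hφ : BM φ) :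
    ∫ x, F (res n x) * φ (x (n + 1)) ∂(law E a ν) =
      ∫ x, F (res n x) * P E.p a φ (x n) ∂(law E a ν) := by
  have key := Kernel.map_frestrictLe_trajMeasure_compProd_eq_map_trajMeasure
    (X := fun _ => T1) (κ := chainKer E a) (μ₀ := ν) (a := n)
  change ((law E a ν).map (res n)) ⊗ₘ chainKer E a n =
    (law E a ν).map (fun x => (res n x, x (n + 1))) at key
  obtain ⟨C, hC⟩ := hF.bdd
  obtain ⟨D, hD⟩ := hφ.bdd
  have hmeas : Measurable (fun z : ((i : Finset.Iic n) → T1) × T1 => F z.1 * φ z.2) :=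
    (hF.meas.comp measurable_fst).mul (hφ.meas.comp measurable_snd)
  have hmap : Measurable (fun x : ℕ → T1 => (res n x, x (n + 1))) :=
    (meas_res n).prodMk (measurable_pi_apply _)
  have h1 : ∫ z, F z.1 * φ z.2 ∂((law E a ν).map (fun x => (res n x, x (n + 1)))) =
      ∫ x, F (res n x) * φ (x (n + 1)) ∂(law E a ν) :=
    integral_map hmap.aemeasurable hmeas.aestronglyMeasurable
  rw [← h1, ← key]
  have : IsProbabilityMeasure ((law E a ν).map (res n)) :=
    Measure.isProbabilityMeasure_map (meas_res n).aemeasurable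
  rw [Measure.integral_compProd]
  · have e1 : ∀ h : ((i : Finset.Iic n) → T1), ∫ y, F h * φ y ∂(chainKer E a n h) =
        F h * P E.p a φ (h ⟨n, Finset.mem_Iic.mpr le_rfl⟩) := by
      intro h
      rw [integral_const_mul]
      congr 1
      change ∫ y, φ y ∂(K E a (h ⟨n, Finset.mem_Iic.mpr le_rfl⟩)) = _
      rw [integral_K]
    simp_rw [e1]
    rw [integral_map (meas_res n).aemeasurable]
    · rfl
    · apply Measurable.aestronglyMeasurable
      exact hF.meas.mul (hφ.P.meas.comp (measurable_pi_apply _))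
  · apply Integrable.of_bound hmeas.aestronglyMeasurable (C * D)
    refine Eventually.of_forall (fun z => ?_)
    rw [Real.norm_eq_abs, abs_mul]
    exact mul_le_mul (hC _) (hD _) (abs_nonneg _) ((abs_nonneg _).trans (hC z.1))

/-- projection between restrictions -/
def prj {m n : ℕ} (h : m ≤ n) (x : (i : Finset.Iic n) → T1) : (i : Finset.Iic m) → T1 :=
  fun i => x ⟨i, Finset.mem_Iic.mpr ((Finset.mem_Iic.mp i.2).trans h)⟩

lemma meas_prj {m n : ℕ} (h : m ≤ n) : Measurable (prj h) :=
  measurable_pi_lambda _ (fun i => measurable_pi_apply _)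

lemma prj_res {m n : ℕ} (h : m ≤ n) (x : ℕ → T1) : prj h (res n x) = res m x := rfl

lemma BMn.lift {m n : ℕ} (h : m ≤ n) {F : ((i : Finset.Iic m) → T1) → ℝ} (hF : BMn m F) :
    BMn n (fun x => F (prj h x)) := by
  obtain ⟨C, hC⟩ := hF.bdd
  exact ⟨hF.meas.comp (meas_prj h), C, fun x => hC _⟩

lemma BMn.mul_last {n : ℕ} {F : ((i : Finset.Iic n) → T1) → ℝ} (hF : BMn n F) {φ : T1 → ℝ}
    (hφ : BM φ) : BMn n (fun x => F x * φ (x ⟨n, Finset.mem_Iic.mpr le_rfl⟩)) := by
  obtain ⟨C, hC⟩ := hF.bdd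
  obtain ⟨D, hD⟩ := hφ.bdd
  refine ⟨hF.meas.mul (hφ.meas.comp (measurable_pi_apply _)), C * D, fun x => ?_⟩
  rw [abs_mul]
  exact mul_le_mul (hC _) (hD _) (abs_nonneg _) ((abs_nonneg _).trans (hC x))

lemma markov_iter (n k : ℕ) {F : ((i : Finset.Iic n) → T1) → ℝ} (hF : BMn n F) {φ : T1 → ℝ}
    (hφ : BM φ) :
    ∫ x, F (res n x) * φ (x (n + k)) ∂(law E a ν) =
      ∫ x, F (res n x) * (P E.p a)^[k] φ (x n) ∂(law E a ν) := by
  induction k generalizing φ with
  | zero => simp
  | succ k ih =>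
    have h1 := markov (E := E) (a := a) (ν := ν) (n + k) (hF.lift (Nat.le_add_right n k)) hφ
    simp only [prj_res] at h1
    rw [← add_assoc, h1, ih hφ.P, Function.iterate_succ_apply]

/-- `G m t y`: probability, starting from `y`, of visiting `t 0, …, t (m-1)` successively -/
noncomputable def G (E : Env) (a : T1) : ℕ → (ℕ → Set T1) → T1 → ℝ
  | 0, _ => fun _ => 1
  | m + 1, t => fun y => (t 0).indicator (fun _ => (1:ℝ)) y *
      P E.p a (G E a m (fun i => t (i + 1))) y

lemma BM.ind {s : Set T1} (hs : MeasurableSet s) : BM (s.indicator (fun _ => (1:ℝ))) := by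
  refine ⟨measurable_const.indicator hs, 1, fun x => ?_⟩
  by_cases h : x ∈ s <;> simp [h]

lemma G_BM (m : ℕ) (t : ℕ → Set T1) (ht : ∀ i, MeasurableSet (t i)) : BM (G E a m t) := by
  induction m generalizing t with
  | zero => exact BM.const 1
  | succ m ih => exact (BM.ind (ht 0)).mul (ih _ (fun i => ht (i + 1))).P

lemma cyl (m : ℕ) (t : ℕ → Set T1) (ht : ∀ i, MeasurableSet (t i)) (k : ℕ)
    {F : ((i : Finset.Iic k) → T1) → ℝ} (hF : BMn k F) :
    ∫ x, F (res k x) * ∏ i ∈ Finset.range m, (t i).indicator (fun _ => (1:ℝ)) (x (k + i))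
      ∂(law E a ν) = ∫ x, F (res k x) * G E a m t (x k) ∂(law E a ν) := by
  induction m generalizing t k with
  | zero => simp [G]
  | succ m ih =>
    have hF' := (hF.mul_last (BM.ind (ht 0))).lift (Nat.le_succ k)
    have h1 := ih (fun i => t (i + 1)) (fun i => ht (i + 1)) (k + 1) hF'
    have h2 := markov (E := E) (a := a) (ν := ν) k (hF.mul_last (BM.ind (ht 0)))
      (G_BM (E := E) (a := a) m (fun i => t (i + 1)) (fun i => ht (i + 1)))
    simp only [prj_res] at h1
    have e1 : ∀ x : ℕ → T1, F (res k x) *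
        ∏ i ∈ Finset.range (m + 1), (t i).indicator (fun _ => (1:ℝ)) (x (k + i)) =
        F (res k x) * (t 0).indicator (fun _ => (1:ℝ)) (res k x ⟨k, Finset.mem_Iic.mpr le_rfl⟩) *
          ∏ i ∈ Finset.range m, (t (i + 1)).indicator (fun _ => (1:ℝ)) (x (k + 1 + i)) := by
      intro x
      rw [Finset.prod_range_succ', mul_assoc]
      congr 1
      rw [mul_comm]
      congr 1
      apply Finset.prod_congr rfl
      intro i _
      congr 2
      ring
    simp_rw [e1]
    rw [h1, h2]
    congr 1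
    ext x
    simp only [G]
    rw [mul_assoc]
    rfl

/-- one-point functions -/
lemma one_point (h : IsConf a (coc E.p a) ν) {φ : T1 → ℝ} (hφ : BM φ) (k : ℕ) :
    ∫ x, φ (x k) ∂(law E a ν) = ∫ y, φ y ∂ν := by
  have h0 : ∀ ψ : T1 → ℝ, BM ψ → ∫ x, ψ (x 0) ∂(law E a ν) = ∫ y, ψ y ∂ν := by
    intro ψ hψ
    have h2 : ∫ y, ψ y ∂((law E a ν).map (fun x => x 0)) = ∫ x, ψ (x 0) ∂(law E a ν) :=
      integral_map (measurable_pi_apply 0).aemeasurable hψ.meas.aestronglyMeasurable
    rw [← h2, law_zero]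
  have h1 := markov_iter (E := E) (a := a) (ν := ν) 0 k
    (F := fun _ => 1) ⟨measurable_const, 1, fun _ => by simp⟩ hφ
  simp only [one_mul, zero_add] at h1
  rw [h1, h0 _ (hφ.Pn k), Pn_stat h hφ k]

end

end Pool.Agent.N360.QP
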