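import Pool.Agent.N360.QP.Conf

open MeasureTheory Filter Topology
open scoped ENNReal NNReal

namespace Pool.Agent.N360.QP

variable {α : ℝ} {f : T1 → ℝ} {L : ℝ≥0}

lemma meas_sub (a : T1) : Measurable (fun x : T1 => x - a) := measurable_id.sub_const a

lemma IsConf.smul {a : T1} {μ : Measure T1} (h : IsConf a f μ) (c : ℝ≥0∞) :
    IsConf a f (c • μ) := by
  unfold IsConf at *
  rw [Measure.map_smul, h, withDensity_smul_measure]

lemma IsConf.add_cancel {a : T1} {μ ν : Measure T1} [IsFiniteMeasure ν]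
    (h : IsConf a f (μ + ν)) (hν : IsConf a f ν) : IsConf a f μ := by
  unfold IsConf at *
  rw [Measure.map_add _ _ (meas_sub a), withDensity_add_measure, hν] at h
  have hfin : IsFiniteMeasure (ν.withDensity (fun x => ENNReal.ofReal (Real.exp (f x)))) := by
    rw [← hν]; infer_instance
  ext s hs
  have := congrArg (fun m : Measure T1 => m s) h
  simp only [Measure.add_apply] at this
  exact (ENNReal.add_left_inj (measure_ne_top _ _)).mp this

lemma isConf_of_lint {a : T1} {μ : Measure T1}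
    (h : ∀ g : T1 → ℝ≥0∞, Measurable g →
      ∫⁻ x, g (x - a) ∂μ = ∫⁻ x, g x * ENNReal.ofReal (Real.exp (f x)) ∂μ) :
    IsConf a f μ := by
  unfold IsConf
  ext s hs
  have h1 := h (s.indicator (fun _ => 1)) (measurable_const.indicator hs)
  rw [Measure.map_apply (meas_sub a) hs, withDensity_apply _ hs]
  have e1 : ∫⁻ x, s.indicator (fun _ => (1:ℝ≥0∞)) (x - a) ∂μ = μ ((fun x => x - a) ⁻¹' s) := by
    have : (fun x => s.indicator (fun _ => (1:ℝ≥0∞)) (x - a)) =
        ((fun x => x - a) ⁻¹' s).indicator (fun _ => (1:ℝ≥0∞)) := by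
      ext x; simp only [Set.indicator]; rfl
    rw [this, lintegral_indicator ((meas_sub a) hs)]
    simp
  have e2 : ∫⁻ x, s.indicator (fun _ => (1:ℝ≥0∞)) x * ENNReal.ofReal (Real.exp (f x)) ∂μ =
      ∫⁻ x in s, ENNReal.ofReal (Real.exp (f x)) ∂μ := by
    rw [← lintegral_indicator hs]
    apply lintegral_congr
    intro x
    by_cases hx : x ∈ s <;> simp [hx]
  rw [← e1, h1, e2]

lemma IsConf.two {a : T1} {μ : Measure T1} (h : IsConf a f μ) (hf : Continuous f) :
    IsConf (2 • a) (S f a 2) μ :=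
  isConf_of_lint (fun _ hg => h.iter hf 2 hg)

lemma IsConf.restrict {a : T1} {μ : Measure T1} (h : IsConf a f μ)
    {s : Set T1} (hs : MeasurableSet s) (hinv : (fun x => x - a) ⁻¹' s = s) :
    IsConf a f (μ.restrict s) := by
  unfold IsConf at *
  have h1 := Measure.restrict_map (μ := μ) (meas_sub a) hs
  rw [hinv] at h1
  rw [← h1, h, restrict_withDensity hs]

/-- the comparison constant -/
noncomputable def cc (L : ℝ≥0) : ℝ := 49 * Real.exp (4 * L)

lemma cc_pos (L : ℝ≥0) : 0 < cc L := by unfold cc; positivity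

lemma comp_real (hα : Irrational α) (hf : LipschitzWith L f) {μ₁ μ₂ : Measure T1}
    [IsFiniteMeasure μ₁] [IsFiniteMeasure μ₂]
    (h₁ : IsConf (α : T1) f μ₁) (h₂ : IsConf (α : T1) f μ₂) {A : Set T1}
    (hA : MeasurableSet A) :
    μ₁.real A * μ₂.real Set.univ ≤ cc L * μ₁.real Set.univ * μ₂.real A := by
  have h := comp_all hα hf h₁ h₂ hA
  have h2 := ENNReal.toReal_mono (by
    apply ENNReal.mul_ne_top _ (measure_ne_top _ _)
    apply ENNReal.mul_ne_top _ (measure_ne_top _ _)
    exact ENNReal.mul_ne_top (by norm_num) ENNReal.ofReal_ne_top) h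
  simp only [ENNReal.toReal_mul] at h2
  rw [ENNReal.toReal_ofReal (by positivity)] at h2
  unfold Measure.real cc
  have e7 : (7:ℝ≥0∞).toReal = 7 := by norm_num
  rw [e7] at h2
  calc _ ≤ _ := h2
    _ = _ := by ring

/-- uniform comparison with constant `1 + t` -/
def PP (α : ℝ) (f : T1 → ℝ) (t : ℝ) : Prop :=
  ∀ μ₁ μ₂ : Measure T1, IsProbabilityMeasure μ₁ → IsProbabilityMeasure μ₂ →
    IsConf (α : T1) f μ₁ → IsConf (α : T1) f μ₂ → ∀ A, MeasurableSet A →
      μ₁.real A ≤ (1 + t) * μ₂.real A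

lemma PP_base (hα : Irrational α) (hf : LipschitzWith L f) : PP α f (cc L) := by
  intro μ₁ μ₂ i₁ i₂ h₁ h₂ A hA
  have h := comp_real hα hf h₁ h₂ hA
  simp only [probReal_univ, mul_one] at h
  have : 0 ≤ μ₂.real A := measureReal_nonneg
  linarith

lemma PP_half {t : ℝ} (ht : 0 < t) (h : PP α f t) : PP α f (t / 2) := by
  intro μ₁ μ₂ i₁ i₂ h₁ h₂ A hA
  set c : ℝ≥0∞ := ENNReal.ofReal (1 + t) with hc
  have hle : μ₁ ≤ c • μ₂ := by
    rw [Measure.le_iff]
    intro s hs
    have h1 := h μ₁ μ₂ i₁ i₂ h₁ h₂ s hs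
    rw [Measure.smul_apply, smul_eq_mul, hc]
    rw [← ENNReal.toReal_le_toReal (measure_ne_top _ _)
      (ENNReal.mul_ne_top ENNReal.ofReal_ne_top (measure_ne_top _ _)), ENNReal.toReal_mul,
      ENNReal.toReal_ofReal (by linarith)]
    exact h1
  set μ' : Measure T1 := c • μ₂ - μ₁ with hμ'
  have hsum : μ' + μ₁ = c • μ₂ := Measure.sub_add_cancel_of_le hle
  have hcfin : IsFiniteMeasure (c • μ₂) := by
    apply Measure.smul_finite
    exact ENNReal.ofReal_ne_top
  have hfin' : IsFiniteMeasure μ' := by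
    apply isFiniteMeasure_of_le (c • μ₂)
    rw [← hsum]
    exact Measure.le_add_right le_rfl
  have hconf' : IsConf (α : T1) f μ' := by
    apply IsConf.add_cancel (ν := μ₁)
    · rw [hsum]; exact h₂.smul c
    · exact h₁
  have hreal : ∀ s, MeasurableSet s → μ'.real s + μ₁.real s = (1 + t) * μ₂.real s := by
    intro s _
    have e := congrArg (fun m : Measure T1 => (m s).toReal) hsum
    simp only [Measure.add_apply, Measure.smul_apply, smul_eq_mul, ENNReal.toReal_mul] at e
    rw [ENNReal.toReal_add (measure_ne_top _ _) (measure_ne_top _ _), hc,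
      ENNReal.toReal_ofReal (by linarith)] at e
    exact e
  have htot : μ'.real Set.univ = t := by
    have := hreal Set.univ MeasurableSet.univ
    simp only [probReal_univ] at this
    linarith
  set ν : Measure T1 := (ENNReal.ofReal t)⁻¹ • μ' with hν
  have ht0 : ENNReal.ofReal t ≠ 0 := by rw [Ne, ENNReal.ofReal_eq_zero, not_le]; exact ht
  have hνprob : IsProbabilityMeasure ν := by
    constructor
    rw [hν, Measure.smul_apply, smul_eq_mul]
    have : μ' Set.univ = ENNReal.ofReal t := by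
      rw [← htot]
      exact (ENNReal.ofReal_toReal (measure_ne_top _ _)).symm
    rw [this]
    exact ENNReal.inv_mul_cancel ht0 ENNReal.ofReal_ne_top
  have hνconf : IsConf (α : T1) f ν := hconf'.smul _
  have h2 := h μ₁ ν i₁ hνprob h₁ hνconf A hA
  have hνA : ν.real A = t⁻¹ * μ'.real A := by
    rw [hν]
    simp only [Measure.real, Measure.smul_apply, smul_eq_mul, ENNReal.toReal_mul,
      ENNReal.toReal_inv, ENNReal.toReal_ofReal ht.le]
  rw [hνA] at h2
  have h3 := hreal A hA
  have h4 : t * μ₁.real A ≤ (1 + t) * μ'.real A := by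
    calc t * μ₁.real A ≤ t * ((1 + t) * (t⁻¹ * μ'.real A)) :=
          mul_le_mul_of_nonneg_left h2 ht.le
      _ = (1 + t) * μ'.real A := by field_simp
  have h5 : 0 ≤ μ₂.real A := measureReal_nonneg
  have h6 : (1 + 2 * t) * μ₁.real A ≤ (1 + t)^2 * μ₂.real A := by
    have : μ'.real A = (1 + t) * μ₂.real A - μ₁.real A := by linarith
    rw [this] at h4
    nlinarith
  have h7 : (1 + t)^2 * μ₂.real A ≤ (1 + 2 * t) * ((1 + t / 2) * μ₂.real A) := by
    have : (1 + t)^2 ≤ (1 + 2 * t) * (1 + t / 2) := by nlinarith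
    calc _ ≤ ((1 + 2 * t) * (1 + t / 2)) * μ₂.real A := mul_le_mul_of_nonneg_right this h5
      _ = _ := by ring
  exact le_of_mul_le_mul_left (h6.trans h7) (by linarith)

/-- **Uniqueness of the conformal probability measure**, for every irrational rotation. -/
theorem conf_unique (hα : Irrational α) (hf : LipschitzWith L f) {μ₁ μ₂ : Measure T1}
    [i₁ : IsProbabilityMeasure μ₁] [i₂ : IsProbabilityMeasure μ₂]
    (h₁ : IsConf (α : T1) f μ₁) (h₂ : IsConf (α : T1) f μ₂) : μ₁ = μ₂ := by
  have hP : ∀ n : ℕ, PP α f (cc L / 2 ^ n) := by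
    intro n
    induction n with
    | zero => simpa using PP_base hα hf
    | succ n ih =>
      have := PP_half (div_pos (cc_pos L) (by positivity)) ih
      rw [pow_succ, ← div_div]
      exact this
  have hle : ∀ (ν₁ ν₂ : Measure T1), IsProbabilityMeasure ν₁ → IsProbabilityMeasure ν₂ →
      IsConf (α : T1) f ν₁ → IsConf (α : T1) f ν₂ → ∀ A, MeasurableSet A →
        ν₁.real A ≤ ν₂.real A := by
    intro ν₁ ν₂ j₁ j₂ k₁ k₂ A hA
    have hlim : Tendsto (fun n : ℕ => (1 + cc L / 2 ^ n) * ν₂.real A) atTop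
        (𝓝 ((1 + 0) * ν₂.real A)) := by
      apply Tendsto.mul_const
      apply Tendsto.const_add
      have : Tendsto (fun n : ℕ => cc L * (1 / 2 : ℝ) ^ n) atTop (𝓝 (cc L * 0)) :=
        (tendsto_pow_atTop_nhds_zero_of_lt_one (by norm_num) (by norm_num)).const_mul _
      rw [mul_zero] at this
      refine this.congr (fun n => ?_)
      rw [div_pow, one_pow]; ring
    rw [add_zero, one_mul] at hlim
    exact ge_of_tendsto' hlim (fun n => hP n ν₁ ν₂ j₁ j₂ k₁ k₂ A hA)
  ext A hA
  have h3 := hle μ₁ μ₂ i₁ i₂ h₁ h₂ A hA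
  have h4 := hle μ₂ μ₁ i₂ i₁ h₂ h₁ A hA
  have h5 : μ₁.real A = μ₂.real A := le_antisymm h3 h4
  exact (ENNReal.toReal_eq_toReal_iff' (measure_ne_top _ _) (measure_ne_top _ _)).mp h5

/-- Ergodicity of an irrational rotation for a finite conformal measure. -/
theorem conf_ergodic (hα : Irrational α) (hf : LipschitzWith L f) {μ : Measure T1}
    [IsFiniteMeasure μ] (h : IsConf (α : T1) f μ) {s : Set T1} (hs : MeasurableSet s)
    (hinv : (fun x => x + (α : T1)) ⁻¹' s = s) : μ s = 0 ∨ μ sᶜ = 0 := by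
  have hinv' : (fun x => x - (α : T1)) ⁻¹' s = s := by
    ext x
    simp only [Set.mem_preimage]
    have : (x - (α : T1)) ∈ (fun x => x + (α : T1)) ⁻¹' s ↔ x - (α : T1) ∈ s := by rw [hinv]
    rw [← this]
    simp
  have hinvc : (fun x => x - (α : T1)) ⁻¹' sᶜ = sᶜ := by
    rw [Set.preimage_compl, hinv']
  have h1 := h.restrict hs hinv'
  have h2 := h.restrict hs.compl hinvc
  have h3 := comp_all hα hf h1 h2 hs
  rw [Measure.restrict_apply hs, Measure.restrict_apply MeasurableSet.univ,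
    Measure.restrict_apply hs, Set.univ_inter, Set.inter_self, Set.inter_compl_self,
    measure_empty, mul_zero] at h3
  have h4 : μ s * μ sᶜ = 0 := le_antisymm h3 zero_le
  exact mul_eq_zero.mp h4

end Pool.Agent.N360.QP
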